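import Pool.Agent.H319R3.LV.LV1
import Pool.Agent.H499R2.NDStep2

/-! Primes in trajectories, part A: mixing of the offsets for general functions; the sum of the
deviations. -/

set_option autoImplicit false

namespace Pool.Agent.H48C

open Pool.Agent.H320R2.PD Pool.Agent.H499R2.ND Pool.Agent.H319R3.LV Finset

theorem wwt_nonneg (w : List ℕ) : 0 ≤ wwt w := by unfold wwt; positivity

/-- a sum over a set of a function times a periodic function -/
theorem sum_periodic_le' {W : Finset ℤ} {n : ℕ} {e : ℤ → ℤ} {K : ℝ} {Ψ : ℤ → ℝ}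
    (hW : ∀ r : ℤ, ∑ x ∈ W.filter (fun x => (3 : ℤ) ^ n ∣ e x - r), |Ψ x| ≤ K)
    {g : ℤ → ℝ} (hg : ∀ c, 0 ≤ g c) (hper : ∀ c c' : ℤ, (3 : ℤ) ^ n ∣ c - c' → g c = g c') :
    ∑ x ∈ W, |Ψ x| * g (e x) ≤ K * ∑ c ∈ range (3 ^ n), g (c : ℤ) := by
  have h3 : (0 : ℤ) < 3 ^ n := by positivity
  have hr : ∀ x : ℤ, 3 ^ n ∣ e x - (((e x % 3 ^ n).toNat : ℕ) : ℤ) := by
    intro x
    rw [Int.toNat_of_nonneg (Int.emod_nonneg _ h3.ne')]
    exact Int.dvd_self_sub_emod
  calc ∑ x ∈ W, |Ψ x| * g (e x) = ∑ x ∈ W, |Ψ x| * g (((e x % 3 ^ n).toNat : ℕ) : ℤ) :=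
        sum_congr rfl fun x _ => by rw [hper _ _ (hr x)]
    _ = ∑ c ∈ range (3 ^ n), ∑ x ∈ W.filter (fun x => (e x % 3 ^ n).toNat = c),
          |Ψ x| * g (((e x % 3 ^ n).toNat : ℕ) : ℤ) := by
        rw [sum_fiberwise_of_maps_to]
        intro x _
        have h1 := Int.emod_nonneg (e x) h3.ne'
        have h2 := Int.emod_lt_of_pos (e x) h3
        rw [mem_range]
        have h4 : (((e x % 3 ^ n).toNat : ℕ) : ℤ) < ((3 ^ n : ℕ) : ℤ) := by
          rw [Int.toNat_of_nonneg h1]; push_cast; exact h2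
        exact_mod_cast h4
    _ ≤ ∑ c ∈ range (3 ^ n), K * g (c : ℤ) := by
        apply sum_le_sum
        intro c _
        calc ∑ x ∈ W.filter (fun x => (e x % 3 ^ n).toNat = c),
              |Ψ x| * g (((e x % 3 ^ n).toNat : ℕ) : ℤ)
            = ∑ x ∈ W.filter (fun x => (e x % 3 ^ n).toNat = c), |Ψ x| * g (c : ℤ) := by
              apply sum_congr rfl
              intro x hx
              rw [(mem_filter.1 hx).2]
          _ = (∑ x ∈ W.filter (fun x => (e x % 3 ^ n).toNat = c), |Ψ x|) * g (c : ℤ) := by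
              rw [sum_mul]
          _ ≤ K * g (c : ℤ) := by
              apply mul_le_mul_of_nonneg_right _ (hg _)
              refine le_trans ?_ (hW (c : ℤ))
              apply sum_le_sum_of_subset_of_nonneg _ (fun x _ _ => abs_nonneg _)
              intro x hx
              rw [mem_filter] at hx ⊢
              refine ⟨hx.1, ?_⟩
              rw [← hx.2]; exact hr x
    _ = _ := by rw [mul_sum]

/-- mixing for a fixed size, general functions -/
theorem mixG {Ψ : ℤ → ℝ} {W : Finset ℤ} {K : ℝ} (A k m m' T : ℕ) (hm' : m' ≤ k) (c : ℤ)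
    (hK : ∀ r : ℤ, ∑ x ∈ W.filter (fun x => (3 : ℤ) ^ (k + m) ∣ 2 ^ T * x - r), |Ψ x| ≤ K) :
    |∑ w ∈ FWT A k T, ∑ x ∈ W.filter (fun x => (3 : ℤ) ^ (k + m) ∣ 2 ^ T * x - (Wo w + 3 ^ k * c)), Ψ x
      - (∑ w ∈ FWT A k T, ∑ x ∈ W.filter (fun x => (3 : ℤ) ^ m' ∣ 2 ^ T * x - Wo w), Ψ x)
          / 3 ^ (k + m - m')|
      ≤ 2 ^ T * K * dev (FWT A k T) wwt (fun w => (Wo w : ℤ)) (k + m) m' := by
  classical
  set e : ℤ → ℤ := fun x => 2 ^ T * x - 3 ^ k * c with he
  have hwt : ∀ w ∈ FWT A k T, wwt w = (1 / 2 : ℝ) ^ T := by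
    intro w hw
    unfold FWT at hw
    unfold wwt
    rw [(mem_filter.1 hw).2]
  have hcntgen : ∀ (n : ℕ) (u : ℤ → ℤ) (r : ℤ → ℤ),
      (∀ x : ℤ, ∀ w ∈ FWT A k T, ((3 : ℤ) ^ n ∣ 2 ^ T * x - u (Wo w : ℤ) ↔ (3 : ℤ) ^ n ∣ (Wo w : ℤ) - r x)) →
      ∑ w ∈ FWT A k T, ∑ x ∈ W.filter (fun x => (3 : ℤ) ^ n ∣ 2 ^ T * x - u (Wo w : ℤ)), Ψ x
        = ∑ x ∈ W, Ψ x * (2 ^ T * cnt (FWT A k T) wwt (fun w => (Wo w : ℤ)) n (r x)) := by
    intro n u r hur
    calc ∑ w ∈ FWT A k T, ∑ x ∈ W.filter (fun x => (3 : ℤ) ^ n ∣ 2 ^ T * x - u (Wo w : ℤ)), Ψ x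
        = ∑ w ∈ FWT A k T, ∑ x ∈ W, (if (3 : ℤ) ^ n ∣ 2 ^ T * x - u (Wo w : ℤ) then Ψ x else 0) := by
          apply sum_congr rfl
          intro w _
          rw [sum_filter]
      _ = ∑ x ∈ W, ∑ w ∈ FWT A k T, (if (3 : ℤ) ^ n ∣ 2 ^ T * x - u (Wo w : ℤ) then Ψ x else 0) :=
          sum_comm
      _ = _ := by
          apply sum_congr rfl
          intro x _
          unfold cnt
          rw [mul_sum, mul_sum]
          apply sum_congr rfl
          intro w hw
          rw [hwt w hw]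
          by_cases h : (3 : ℤ) ^ n ∣ 2 ^ T * x - u (Wo w : ℤ)
          · rw [if_pos h, if_pos ((hur x w hw).1 h), ← mul_pow]; norm_num
          · rw [if_neg h, if_neg (fun h' => h ((hur x w hw).2 h')), mul_zero, mul_zero]
  have hfull := hcntgen (k + m) (fun W => W + 3 ^ k * c) e (by
    intro x w _
    have : (2 : ℤ) ^ T * x - (Wo w + 3 ^ k * c) = - ((Wo w : ℤ) - e x) := by rw [he]; ring
    rw [this, dvd_neg])
  have hlow := hcntgen m' (fun W => W) e (by
    intro x w _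
    have hdk : (3 : ℤ) ^ m' ∣ 3 ^ k := pow_dvd_pow 3 hm'
    have e1 : (2 : ℤ) ^ T * x - (Wo w : ℤ) = - ((Wo w : ℤ) - e x) + 3 ^ k * c := by rw [he]; ring
    have h2 : (3 : ℤ) ^ m' ∣ 3 ^ k * c := hdk.mul_right _
    rw [e1]
    rw [dvd_add_left h2, dvd_neg])
  rw [hfull, hlow]
  set n := k + m with hn
  have h3n : (0 : ℝ) < 3 ^ (n - m') := by positivity
  have hT : (0 : ℝ) < 2 ^ T := by positivity
  have hdiff : ∑ x ∈ W, |Ψ x| * |cnt (FWT A k T) wwt (fun w => (Wo w : ℤ)) n (e x)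
        - cnt (FWT A k T) wwt (fun w => (Wo w : ℤ)) m' (e x) / 3 ^ (n - m')|
      ≤ K * dev (FWT A k T) wwt (fun w => (Wo w : ℤ)) n m' := by
    unfold dev
    apply sum_periodic_le' (g := fun c => |cnt (FWT A k T) wwt (fun w => (Wo w : ℤ)) n c
        - cnt (FWT A k T) wwt (fun w => (Wo w : ℤ)) m' c / 3 ^ (n - m')|)
    · intro r
      have h1 := hK (3 ^ k * c + r)
      refine le_trans (le_of_eq ?_) h1
      apply sum_congr _ (fun _ _ => rfl)
      ext x
      rw [mem_filter, mem_filter, he]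
      have : (2 : ℤ) ^ T * x - 3 ^ k * c - r = 2 ^ T * x - (3 ^ k * c + r) := by ring
      simp only [this]
    · intro c; exact abs_nonneg _
    · intro c c' hcc
      have h1 := cnt_congr (s := FWT A k T) (wt := wwt) (fun w => (Wo w : ℤ)) n hcc
      have h2 := cnt_congr (s := FWT A k T) (wt := wwt) (fun w => (Wo w : ℤ)) m'
        ((pow_dvd_pow 3 (by omega : m' ≤ n)).trans hcc)
      rw [h1, h2]
  rw [sum_div, ← sum_sub_distrib]
  refine (abs_sum_le_sum_abs _ _).trans ?_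
  calc ∑ x ∈ W, |Ψ x * (2 ^ T * cnt (FWT A k T) wwt (fun w => (Wo w : ℤ)) n (e x))
        - Ψ x * (2 ^ T * cnt (FWT A k T) wwt (fun w => (Wo w : ℤ)) m' (e x)) / 3 ^ (n - m')|
      = 2 ^ T * ∑ x ∈ W, |Ψ x| * |cnt (FWT A k T) wwt (fun w => (Wo w : ℤ)) n (e x)
        - cnt (FWT A k T) wwt (fun w => (Wo w : ℤ)) m' (e x) / 3 ^ (n - m')| := by
        rw [mul_sum]
        apply sum_congr rfl
        intro x _
        rw [← abs_of_pos hT, ← abs_mul, ← abs_mul, abs_of_pos hT]
        congr 1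
        ring
    _ ≤ 2 ^ T * (K * dev (FWT A k T) wwt (fun w => (Wo w : ℤ)) n m') :=
        mul_le_mul_of_nonneg_left hdiff hT.le
    _ = _ := by ring

theorem sum_inv_sq (m : ℕ) (hm : 1 ≤ m) (n : ℕ) (hn : m ≤ n) :
    ∑ J ∈ Ico m n, (1 / (J : ℝ)) ^ 2 ≤ 2 / (m : ℝ) - 2 / (n : ℝ) := by
  have hm0 : (0 : ℝ) < m := by exact_mod_cast hm
  induction n, hn using Nat.le_induction with
  | base => simp
  | succ n hn ih =>
    rw [sum_Ico_succ_top hn]
    have hn0 : (0 : ℝ) < n := by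
      have : 0 < n := by omega
      exact_mod_cast this
    have h1 : (1 : ℝ) ≤ n := by exact_mod_cast (hm.trans hn)
    have h2 : (1 / (n : ℝ)) ^ 2 ≤ 2 / n - 2 / ((n + 1 : ℕ) : ℝ) := by
      push_cast
      rw [div_sub_div _ _ (by positivity) (by positivity), div_pow, one_pow,
        div_le_div_iff₀ (by positivity) (by positivity)]
      nlinarith
    linarith

/-- total variation of the offsets of `k` letters above the digit `m'`, up to the digit `k + c k`,
without the factor `k` -/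
theorem dev_sum (B : ℕ) : ∃ C : ℝ, 0 < C ∧ ∃ c : ℝ, 0 < c ∧ c ≤ 1 / 400 ∧ ∀ k m m' A : ℕ,
    1 ≤ k → 1 ≤ m' → m' ≤ k → (m : ℝ) ≤ c * k → 3 * k ≤ A →
    ∑ T ∈ range (k * A + 1), dev (FWT A k T) wwt (fun w => (Wo w : ℤ)) (k + m) m'
      ≤ C * (1 / (m' : ℝ)) ^ B := by
  obtain ⟨C, hC, c, hc, hc1, hg⟩ := gam_all_lin (2 * (B + 2))
  refine ⟨Real.sqrt (2 * C) * 3, by positivity, c, hc, hc1, fun k m m' A hk hm' hmk hm hA => ?_⟩
  have hnn : ∀ T, ∀ w ∈ FWT A k T, 0 ≤ wwt w := fun T w _ => wwt_nonneg w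
  have hmass : ∑ T ∈ range (k * A + 1), ∑ w ∈ FWT A k T, wwt w ≤ 1 := by
    unfold FWT
    rw [sum_fiberwise_of_maps_to (g := fun w : List ℕ => w.sum)]
    · exact sum_wwt_le A k
    · intro w hw
      have := (sum_le_of_mem hw).2
      simp only [mem_range]
      omega
  have hkR : (0 : ℝ) < k := by exact_mod_cast hk
  have hm'R : (0 : ℝ) < m' := by exact_mod_cast hm'
  have hm'1 : (1 : ℝ) ≤ m' := by exact_mod_cast hm'
  have hgJ : ∀ J ∈ Ico m' (k + m), gam A k J ≤ C * (1 / (min J k : ℕ)) ^ (2 * (B + 2)) := by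
    intro J hJ
    rw [mem_Ico] at hJ
    have := hg k m (min J k) A J hk (by omega) (min_le_right _ _) hm hA (min_le_left _ _) hJ.2
    exact this
  calc ∑ T ∈ range (k * A + 1), dev (FWT A k T) wwt (fun w => (Wo w : ℤ)) (k + m) m'
      ≤ ∑ T ∈ range (k * A + 1), ∑ J ∈ Ico m' (k + m), Real.sqrt (2 * ∑ i ∈ FWT A k T, wwt i)
          * Real.sqrt (Gam (FWT A k T) wwt (fun w => (Wo w : ℤ)) J) :=
        sum_le_sum fun T _ => dev_le _ (hnn T) m' (k + m) (by omega)
    _ = ∑ J ∈ Ico m' (k + m), ∑ T ∈ range (k * A + 1), Real.sqrt (2 * ∑ i ∈ FWT A k T, wwt i)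
          * Real.sqrt (Gam (FWT A k T) wwt (fun w => (Wo w : ℤ)) J) := sum_comm
    _ ≤ ∑ J ∈ Ico m' (k + m), Real.sqrt 2 * Real.sqrt (gam A k J) := by
        apply sum_le_sum
        intro J _
        refine (Real.sum_sqrt_mul_sqrt_le (range (k * A + 1))
          (f := fun T => 2 * ∑ i ∈ FWT A k T, wwt i)
          (g := fun T => Gam (FWT A k T) wwt (fun w => (Wo w : ℤ)) J) ?_ ?_).trans ?_
        · intro T
          have := sum_nonneg (hnn T)
          positivity
        · intro T; exact Gam_nonneg _ J (hnn T)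
        · apply mul_le_mul_of_nonneg_right _ (Real.sqrt_nonneg _)
          apply Real.sqrt_le_sqrt
          rw [← mul_sum]
          linarith
    _ ≤ ∑ J ∈ Ico m' (k + m), Real.sqrt (2 * C) * (1 / (min J k : ℕ)) ^ (B + 2) := by
        apply sum_le_sum
        intro J hJ
        have h1 := hgJ J hJ
        rw [← Real.sqrt_mul (by norm_num)]
        calc Real.sqrt (2 * gam A k J)
            ≤ Real.sqrt (2 * (C * (1 / (min J k : ℕ)) ^ (2 * (B + 2)))) :=
              Real.sqrt_le_sqrt (by linarith)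
          _ = Real.sqrt (2 * C) * Real.sqrt ((1 / (min J k : ℕ)) ^ (2 * (B + 2))) := by
              rw [← Real.sqrt_mul (by positivity)]; ring_nf
          _ = Real.sqrt (2 * C) * (1 / (min J k : ℕ)) ^ (B + 2) := by
              congr 1
              rw [mul_comm 2 (B + 2), pow_mul, Real.sqrt_sq (by positivity)]
    _ = Real.sqrt (2 * C) * ∑ J ∈ Ico m' (k + m), (1 / (min J k : ℕ) : ℝ) ^ (B + 2) := by rw [mul_sum]
    _ ≤ Real.sqrt (2 * C) * (3 * (1 / (m' : ℝ)) ^ B) := by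
        apply mul_le_mul_of_nonneg_left _ (Real.sqrt_nonneg _)
        rw [← sum_Ico_consecutive _ hmk (by omega : k ≤ k + m)]
        have h1 : ∑ J ∈ Ico m' k, (1 / (min J k : ℕ) : ℝ) ^ (B + 2)
            ≤ (1 / (m' : ℝ)) ^ B * (2 / m') := by
          calc ∑ J ∈ Ico m' k, (1 / (min J k : ℕ) : ℝ) ^ (B + 2)
              ≤ ∑ J ∈ Ico m' k, (1 / (m' : ℝ)) ^ B * (1 / (J : ℝ)) ^ 2 := by
                apply sum_le_sum
                intro J hJ
                rw [mem_Ico] at hJ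
                rw [min_eq_left (by omega : J ≤ k), pow_add]
                apply mul_le_mul_of_nonneg_right _ (by positivity)
                apply pow_le_pow_left₀ (by positivity)
                apply one_div_le_one_div_of_le hm'R
                exact_mod_cast hJ.1
            _ = (1 / (m' : ℝ)) ^ B * ∑ J ∈ Ico m' k, (1 / (J : ℝ)) ^ 2 := by rw [mul_sum]
            _ ≤ _ := by
                apply mul_le_mul_of_nonneg_left _ (by positivity)
                have := sum_inv_sq m' hm' k hmk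
                have : (0 : ℝ) ≤ 2 / k := by positivity
                linarith
        have h2 : ∑ J ∈ Ico k (k + m), (1 / (min J k : ℕ) : ℝ) ^ (B + 2)
            ≤ (1 / (m' : ℝ)) ^ B * 1 := by
          calc ∑ J ∈ Ico k (k + m), (1 / (min J k : ℕ) : ℝ) ^ (B + 2)
              ≤ ∑ J ∈ Ico k (k + m), (1 / (m' : ℝ)) ^ B * (1 / (k : ℝ)) ^ 2 := by
                apply sum_le_sum
                intro J hJ
                rw [mem_Ico] at hJ
                rw [min_eq_right hJ.1, pow_add]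
                apply mul_le_mul_of_nonneg_right _ (by positivity)
                apply pow_le_pow_left₀ (by positivity)
                apply one_div_le_one_div_of_le hm'R
                exact_mod_cast hmk
            _ = (1 / (m' : ℝ)) ^ B * (m * (1 / (k : ℝ)) ^ 2) := by
                rw [sum_const, nsmul_eq_mul, Nat.card_Ico, Nat.add_sub_cancel_left]; ring
            _ ≤ _ := by
                apply mul_le_mul_of_nonneg_left _ (by positivity)
                rw [one_div, inv_pow, ← div_eq_mul_inv, div_le_one (by positivity)]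
                have hk1 : (1 : ℝ) ≤ k := by exact_mod_cast hk
                nlinarith
        have h3 : (2 / (m' : ℝ)) ≤ 2 := by
          rw [div_le_iff₀ hm'R]; linarith
        have h4 : (0 : ℝ) ≤ (1 / (m' : ℝ)) ^ B := by positivity
        nlinarith
    _ = _ := by ring

end Pool.Agent.H48C
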