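import Pool.Agent.H48C.Pnt

/-! Primes in trajectories, part F2: typical words with given final residue modulo a power of three. -/

set_option autoImplicit false

namespace Pool.Agent.H48C

open Finset Filter Pool.Agent.H320R2.PD Pool.Agent.H499R2.ND

/-- typical words of length `k` -/
def GT (k : ℕ) : Finset (List ℕ) := GW (3 * k) k ((39 * k + 19) / 20) (41 * k / 20)

theorem mem_GT {k : ℕ} {w : List ℕ} : w ∈ GT k ↔ w ∈ FW (3 * k) k ∧ 39 * k ≤ 20 * w.sum ∧ 20 * w.sum ≤ 41 * k := by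
  unfold GT GW
  rw [mem_filter]
  constructor
  · rintro ⟨h1, h2, h3⟩; exact ⟨h1, by omega, by omega⟩
  · rintro ⟨h1, h2, h3⟩; exact ⟨h1, by omega, by omega⟩

/-- a word with a given final residue -/
theorem exists_word (v : ℕ) : ∀ a : ℤ, ¬ (3 : ℤ) ∣ a → ∃ w : List ℕ, w.length = v ∧
    (∀ e ∈ w, 1 ≤ e ∧ e ≤ 6) ∧ (3 : ℤ) ^ v ∣ 2 ^ w.sum * a - Wo w := by
  induction v with
  | zero => intro a _; exact ⟨[], rfl, by simp, by simp⟩
  | succ v ih =>
    intro a ha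
    obtain ⟨e, he1, he6, y, hy, hy3⟩ : ∃ e : ℕ, 1 ≤ e ∧ e ≤ 6 ∧ ∃ y : ℤ, 2 ^ e * a = 3 * y + 1 ∧ ¬ (3 : ℤ) ∣ y := by
      have h9 : a % 9 = 1 ∨ a % 9 = 2 ∨ a % 9 = 4 ∨ a % 9 = 5 ∨ a % 9 = 7 ∨ a % 9 = 8 := by omega
      rcases h9 with h | h | h | h | h | h
      · exact ⟨2, by norm_num, by norm_num, (2 ^ 2 * a - 1) / 3, by omega, by omega⟩
      · exact ⟨1, by norm_num, by norm_num, (2 ^ 1 * a - 1) / 3, by omega, by omega⟩
      · exact ⟨6, by norm_num, by norm_num, (2 ^ 6 * a - 1) / 3, by omega, by omega⟩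
      · exact ⟨3, by norm_num, by norm_num, (2 ^ 3 * a - 1) / 3, by omega, by omega⟩
      · exact ⟨4, by norm_num, by norm_num, (2 ^ 4 * a - 1) / 3, by omega, by omega⟩
      · exact ⟨5, by norm_num, by norm_num, (2 ^ 5 * a - 1) / 3, by omega, by omega⟩
    obtain ⟨w, hw1, hw2, t, ht⟩ := ih y hy3
    refine ⟨e :: w, by simp [hw1], ?_, t, ?_⟩
    · intro x hx
      rw [List.mem_cons] at hx
      rcases hx with rfl | hx
      · exact ⟨he1, he6⟩
      · exact hw2 x hx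
    · rw [List.sum_cons, Wo]
      push_cast
      have e1 : (2 : ℤ) ^ (e + w.sum) * a = 2 ^ w.sum * (2 ^ e * a) := by rw [pow_add]; ring
      rw [e1, hy, pow_succ]
      linear_combination 3 * ht

theorem mass_cls (v : ℕ) (a : ℤ) (ha : ¬ (3 : ℤ) ∣ a) : ∃ μ : ℝ, 0 < μ ∧ ∃ k1 : ℕ, 1 ≤ k1 ∧ ∀ k : ℕ, k1 ≤ k →
    ∀ S : Finset (List ℕ), (∀ w, w ∈ S ↔ w ∈ GT k ∧ (3 : ℤ) ^ v ∣ 2 ^ w.sum * a - Wo w) → μ ≤ ∑ w ∈ S, wwt w := by
  classical
  obtain ⟨v0, hv1, hv2, hv3⟩ := exists_word v a ha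
  have hs1 : v0.sum ≤ 6 * v := by
    have := List.sum_le_card_nsmul v0 6 (fun x hx => (hv2 x hx).2)
    rw [hv1] at this
    simpa [mul_comm] using this
  refine ⟨(1 / 2) ^ v0.sum * (1 / 2), by positivity, 800 * v + 1000000, by omega, fun k hk S hS => ?_⟩
  obtain ⟨n, rfl⟩ : ∃ n, k = v + n := Nat.exists_eq_add_of_le (by omega)
  set G := (FW (3 * (v + n)) n).filter (fun u => ¬ ((1 / 25 : ℝ) * n ≤ |(u.sum : ℝ) - 2 * n|)) with hG
  have hn : 1000000 ≤ n := by omega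
  have hnR : (1000000 : ℝ) ≤ n := by exact_mod_cast hn
  -- mass of G
  have hmass : 1 / 2 ≤ ∑ u ∈ G, wwt u := by
    have h1 := sum_filter_add_sum_filter_not (FW (3 * (v + n)) n)
      (fun u : List ℕ => (1 / 25 : ℝ) * n ≤ |(u.sum : ℝ) - 2 * n|) wwt
    have h2 := tail (3 * (v + n)) n (η := 1 / 25) (by norm_num) (by norm_num)
    have h3 : 1 - (n : ℝ) * (1 / 2) ^ (3 * (v + n)) ≤ ∑ w ∈ FW (3 * (v + n)) n, wwt w := by
      rw [sum_wwt]
      have := one_add_mul_le_pow (a := -(1 / 2 : ℝ) ^ (3 * (v + n))) (by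
        have : (1 / 2 : ℝ) ^ (3 * (v + n)) ≤ 1 := pow_le_one₀ (by norm_num) (by norm_num)
        linarith) n
      rw [← sub_eq_add_neg] at this
      linarith
    have h4 : (n : ℝ) * (1 / 2) ^ (3 * (v + n)) ≤ 1 / 4 := by
      have e1 : (n : ℝ) ≤ 2 ^ n := by exact_mod_cast Nat.lt_two_pow_self.le
      have e2 : (1 / 2 : ℝ) ^ (3 * (v + n)) ≤ (1 / 2) ^ n * (1 / 4) := by
        rw [show (1 / 4 : ℝ) = (1 / 2) ^ 2 by norm_num, ← pow_add]
        exact pow_le_pow_of_le_one (by norm_num) (by norm_num) (by omega)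
      calc (n : ℝ) * (1 / 2) ^ (3 * (v + n)) ≤ 2 ^ n * ((1 / 2) ^ n * (1 / 4)) :=
            mul_le_mul e1 e2 (by positivity) (by positivity)
        _ = (2 * (1 / 2)) ^ n * (1 / 4) := by rw [mul_pow]; ring
        _ = 1 / 4 := by norm_num
    have h5 : 2 * Real.exp (-((1 / 25 : ℝ) ^ 2 * n / 32)) ≤ 1 / 4 := by
      have e1 : Real.exp (-((1 / 25 : ℝ) ^ 2 * n / 32)) ≤ Real.exp (-7) := by
        apply Real.exp_le_exp.2
        linarith
      have e2 : Real.exp (-7) ≤ 1 / 8 := by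
        rw [Real.exp_neg, inv_eq_one_div]
        apply one_div_le_one_div_of_le (by norm_num)
        have := Real.add_one_le_exp (7 : ℝ)
        linarith
      linarith
    rw [hG]
    linarith
  -- embedding
  have hsub : G.image (fun u => v0 ++ u) ⊆ S := by
    intro w hw
    rw [mem_image] at hw
    obtain ⟨u, hu, rfl⟩ := hw
    rw [hG, mem_filter] at hu
    obtain ⟨hu1, hu2⟩ := hu
    push Not at hu2
    obtain ⟨hl, he⟩ := mem_FW.1 hu1
    rw [abs_lt] at hu2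
    have hs1R : (v0.sum : ℝ) ≤ 6 * v := by exact_mod_cast hs1
    have hkR : (800 : ℝ) * v + 1000000 ≤ v + n := by exact_mod_cast hk
    have hv0 : (0 : ℝ) ≤ v := Nat.cast_nonneg v
    have hss : (0 : ℝ) ≤ v0.sum := Nat.cast_nonneg _
    rw [hS, mem_GT, List.sum_append]
    refine ⟨⟨?_, ?_, ?_⟩, ?_⟩
    · rw [mem_FW]
      refine ⟨by rw [List.length_append, hv1, hl], ?_⟩
      intro x hx
      rw [List.mem_append] at hx
      rcases hx with hx | hx
      · exact ⟨(hv2 x hx).1, (hv2 x hx).2.trans (by omega)⟩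
      · exact he x hx
    · have : (39 : ℝ) * (v + n) ≤ 20 * (v0.sum + u.sum) := by linarith [hu2.1]
      exact_mod_cast this
    · have : (20 : ℝ) * (v0.sum + u.sum) ≤ 41 * (v + n) := by linarith [hu2.2]
      exact_mod_cast this
    · rw [Wo_append, hv1]
      push_cast
      have e1 : (2 : ℤ) ^ (v0.sum + u.sum) * a - (2 ^ u.sum * (Wo v0 : ℤ) + 3 ^ v * Wo u)
          = 2 ^ u.sum * (2 ^ v0.sum * a - Wo v0) - 3 ^ v * Wo u := by rw [pow_add]; ring
      rw [e1]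
      exact dvd_sub (hv3.mul_left _) (dvd_mul_right _ _)
  calc (1 / 2 : ℝ) ^ v0.sum * (1 / 2) ≤ wwt v0 * ∑ u ∈ G, wwt u := by
        unfold wwt at hmass ⊢
        exact mul_le_mul_of_nonneg_left hmass (by positivity)
    _ = ∑ w ∈ G.image (fun u => v0 ++ u), wwt w := by
        rw [sum_image (by intro x _ y _ hxy; exact List.append_cancel_left hxy), mul_sum]
        apply sum_congr rfl
        intro u _
        rw [wwt_append]
    _ ≤ _ := sum_le_sum_of_subset_of_nonneg hsub (fun w _ _ => Pool.Agent.H320R2.PD.wwt_nonneg w)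

end Pool.Agent.H48C
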