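import Pool.Agent.H48C.Cnt
import Pool.Agent.Helper602.MK.J13

/-! Primes in trajectories, part F: primes in a class of a window. -/

set_option autoImplicit false

namespace Pool.Agent.H48C

open Finset Filter Pool.Agent.H320R2.PD Pool.Agent.H499R2.ND Pool.Agent.Helper602.MK

theorem unit_class (m' T : ℕ) (hm' : 1 ≤ m') (r : ℤ) (hr : ¬ (3 : ℤ) ∣ r) :
    ∃ a : ℕ, a < 3 ^ m' ∧ Nat.Coprime a (3 ^ m') ∧ ∀ p : ℕ, p ≡ a [MOD 3 ^ m'] → (3 : ℤ) ^ m' ∣ 2 ^ T * p - r := by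
  obtain ⟨u, v, huv⟩ := cop23 T m'
  have h3 : (0 : ℤ) < 3 ^ m' := by positivity
  have h0 := Int.emod_nonneg (u * r) h3.ne'
  have h1 := Int.emod_lt_of_pos (u * r) h3
  obtain ⟨a, ha⟩ : ∃ a : ℕ, (a : ℤ) = u * r % 3 ^ m' := ⟨(u * r % 3 ^ m').toNat, Int.toNat_of_nonneg h0⟩
  have hda : (3 : ℤ) ^ m' ∣ 2 ^ T * a - r := by
    have e1 : (3 : ℤ) ^ m' ∣ u * r - a := by rw [ha]; exact Int.dvd_self_sub_emod
    have e2 : 2 ^ T * (a : ℤ) - r = - (2 ^ T * (u * r - a)) + 3 ^ m' * (- (v * r)) := by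
      linear_combination r * huv
    rw [e2]
    exact dvd_add ((e1.mul_left _).neg_right) (dvd_mul_right _ _)
  refine ⟨a, by have : (a : ℤ) < (3 ^ m' : ℕ) := by push_cast; rw [ha]; exact h1
                exact_mod_cast this, ?_, ?_⟩
  · apply Nat.Coprime.pow_right
    rw [Nat.coprime_comm, Nat.Prime.coprime_iff_not_dvd Nat.prime_three]
    intro h
    apply hr
    have e1 : (3 : ℤ) ∣ a := by exact_mod_cast h
    have e2 : (3 : ℤ) ∣ 2 ^ T * a - r := (dvd_pow_self 3 (by omega)).trans hda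
    have e3 := dvd_sub (e1.mul_left (2 ^ T)) e2
    rwa [show 2 ^ T * (a : ℤ) - (2 ^ T * a - r) = r by ring] at e3
  · intro p hp
    have e1 : (3 : ℤ) ^ m' ∣ (a : ℤ) - p := by
      have := (Nat.modEq_iff_dvd).1 hp
      exact_mod_cast this
    have e2 : 2 ^ T * (p : ℤ) - r = (2 ^ T * a - r) - 2 ^ T * (a - p) := by ring
    rw [e2]
    exact dvd_sub hda (e1.mul_left _)

theorem pi_class (W : ℕ) (hW : 1 ≤ W) : ∃ N0 : ℕ, 2 ≤ N0 ∧ ∀ N : ℕ, N0 ≤ N → ∀ a < W, Nat.Coprime a W →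
    (0.99 / (Nat.totient W : ℝ)) * (N / Real.log N) ≤
      (((Icc 1 N).filter (fun p => p.Prime ∧ p ≡ a [MOD W])).card : ℝ) ∧
    (((Icc 1 N).filter (fun p => p.Prime ∧ p ≡ a [MOD W])).card : ℝ) ≤
      (1.01 / (Nat.totient W : ℝ)) * (N / Real.log N) := by
  classical
  have hφ : (0 : ℝ) < (Nat.totient W : ℝ) := by
    exact_mod_cast Nat.totient_pos.2 (by omega)
  have hall : ∀ a ∈ range W, ∀ᶠ N : ℕ in atTop, Nat.Coprime a W →
      (0.99 / (Nat.totient W : ℝ)) * (N / Real.log N) ≤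
      (((Icc 1 N).filter (fun p => p.Prime ∧ p ≡ a [MOD W])).card : ℝ) ∧
    (((Icc 1 N).filter (fun p => p.Prime ∧ p ≡ a [MOD W])).card : ℝ) ≤
      (1.01 / (Nat.totient W : ℝ)) * (N / Real.log N) := by
    intro a _
    by_cases hc : Nat.Coprime a W
    · have h1 := N_J13.J13 W a hW hc
      rw [Metric.tendsto_nhds] at h1
      have h2 := h1 (0.01 / (Nat.totient W : ℝ)) (by positivity)
      filter_upwards [h2, eventually_ge_atTop 2] with N hN hN2 _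
      rw [Real.dist_eq, abs_lt] at hN
      have hNR : (2 : ℝ) ≤ N := by exact_mod_cast hN2
      have hlog : 0 < Real.log N := Real.log_pos (by linarith)
      set f := (((Icc 1 N).filter (fun p => p.Prime ∧ p ≡ a [MOD W])).card : ℝ)
      have e1 : f = f * Real.log N / N * (N / Real.log N) := by field_simp
      have hq : 0 < N / Real.log N := by positivity
      constructor
      · rw [e1]
        apply mul_le_mul_of_nonneg_right _ hq.le
        have : 0.99 / (Nat.totient W : ℝ) = 1 / (Nat.totient W : ℝ) - 0.01 / (Nat.totient W : ℝ) := by ring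
        rw [this]; linarith [hN.1]
      · rw [e1]
        apply mul_le_mul_of_nonneg_right _ hq.le
        have : 1.01 / (Nat.totient W : ℝ) = 1 / (Nat.totient W : ℝ) + 0.01 / (Nat.totient W : ℝ) := by ring
        rw [this]; linarith [hN.2]
    · exact Eventually.of_forall fun N h => absurd h hc
  obtain ⟨N0, hN0⟩ := eventually_atTop.1 ((Filter.eventually_all_finset (range W)).2 hall)
  exact ⟨max N0 2, le_max_right _ _, fun N hN a ha hc =>
    hN0 N ((le_max_left _ _).trans hN) a (mem_range.2 ha) hc⟩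

/-- a class modulo `W` compatible with given classes -/
theorem comb_class (q a m' T : ℕ) (hq : 1 ≤ q) (ha : Nat.Coprime a q) (r : ℤ) (hr : ¬ (3 : ℤ) ∣ r)
    (v q' : ℕ) (hqv : q = 3 ^ v * q') (hq' : Nat.Coprime 3 q')
    (hra : (3 : ℤ) ^ v ∣ 2 ^ T * a - r) (hm' : 1 ≤ m') :
    ∃ b : ℕ, b < 3 ^ (max m' v) * q' ∧ Nat.Coprime b (3 ^ (max m' v) * q') ∧
      ∀ p : ℕ, p ≡ b [MOD 3 ^ (max m' v) * q'] → p ≡ a [MOD q] ∧ (3 : ℤ) ^ m' ∣ 2 ^ T * p - r := by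
  have hq'0 : 1 ≤ q' := by
    rcases Nat.eq_zero_or_pos q' with h | h
    · rw [h, mul_zero] at hqv; omega
    · exact h
  obtain ⟨a1, _, ha12, ha13⟩ := unit_class m' T hm' r hr
  -- the class modulo the power of three
  obtain ⟨c, hc1, hc2, hc3⟩ : ∃ c : ℕ, Nat.Coprime c (3 ^ (max m' v)) ∧
      (∀ p : ℕ, p ≡ c [MOD 3 ^ (max m' v)] → p ≡ a [MOD 3 ^ v]) ∧
      (∀ p : ℕ, p ≡ c [MOD 3 ^ (max m' v)] → (3 : ℤ) ^ m' ∣ 2 ^ T * p - r) := by
    rcases Nat.le_total v m' with h | h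
    · rw [max_eq_left h]
      refine ⟨a1, ha12, fun p hp => ?_, fun p hp => ha13 p hp⟩
      have h1 : (3 : ℤ) ^ v ∣ 2 ^ T * p - r := (pow_dvd_pow 3 h).trans (ha13 p hp)
      have h2 := dvd_sub hra h1
      rw [show 2 ^ T * (a : ℤ) - r - (2 ^ T * p - r) = 2 ^ T * (a - p) by ring] at h2
      have h3 := (cop23 T v).symm.dvd_of_dvd_mul_left h2
      rw [Nat.modEq_iff_dvd]
      exact_mod_cast h3
    · rw [max_eq_right h]
      have hv1 : 1 ≤ v := hm'.trans h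
      refine ⟨a, ?_, fun p hp => hp, fun p hp => ?_⟩
      · exact Nat.Coprime.coprime_dvd_right (by rw [hqv]; exact dvd_mul_right _ _) ha
      · have e1 : (3 : ℤ) ^ v ∣ (a : ℤ) - p := by
          have := (Nat.modEq_iff_dvd).1 hp
          exact_mod_cast this
        have e2 : 2 ^ T * (p : ℤ) - r = (2 ^ T * a - r) - 2 ^ T * (a - p) := by ring
        rw [e2]
        exact (pow_dvd_pow 3 h).trans (dvd_sub hra (e1.mul_left _))
  have hcop : Nat.Coprime (3 ^ (max m' v)) q' := Nat.Coprime.pow_left _ hq'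
  obtain ⟨b0, hb1, hb2⟩ := Nat.chineseRemainder hcop c a
  obtain ⟨W, hW⟩ : ∃ W, W = 3 ^ (max m' v) * q' := ⟨_, rfl⟩
  have hW0 : 0 < W := by rw [hW]; positivity
  have hbmod : b0 % W ≡ b0 [MOD W] := Nat.mod_modEq _ _
  have hb3 : b0 % W ≡ c [MOD 3 ^ (max m' v)] :=
    (hbmod.of_dvd (by rw [hW]; exact dvd_mul_right _ _)).trans hb1
  have hb4 : b0 % W ≡ a [MOD q'] :=
    (hbmod.of_dvd (by rw [hW]; exact dvd_mul_left _ _)).trans hb2
  rw [← hW]
  refine ⟨b0 % W, Nat.mod_lt _ hW0, ?_, fun p hp => ?_⟩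
  · rw [hW]
    apply Nat.Coprime.mul_right
    · rw [← hW]
      exact (Nat.Coprime.symm (by
        have := Nat.ModEq.gcd_eq hb3
        rw [Nat.Coprime, Nat.gcd_comm, this, hc1]))
    · rw [← hW]
      have := Nat.ModEq.gcd_eq hb4
      rw [Nat.Coprime, this]
      exact Nat.Coprime.coprime_dvd_right (by rw [hqv]; exact dvd_mul_left _ _) ha
  · have h1 : p ≡ c [MOD 3 ^ (max m' v)] :=
      (hp.of_dvd (by rw [hW]; exact dvd_mul_right _ _)).trans hb3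
    have h2 : p ≡ a [MOD q'] := (hp.of_dvd (by rw [hW]; exact dvd_mul_left _ _)).trans hb4
    refine ⟨?_, hc3 p h1⟩
    rw [hqv]
    exact (Nat.modEq_and_modEq_iff_modEq_mul (Nat.Coprime.pow_left _ hq')).1 ⟨hc2 p h1, h2⟩

/-- sets of primes which are thick in the classes modulo powers of three compatible with one class -/
structure Thick (P : ℤ → Prop) (κ : ℝ) (v : ℕ) (a : ℤ) : Prop where
  prime : ∀ x, P x → PrZ x
  pos : 0 < κ
  unit : ¬ (3 : ℤ) ∣ a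
  win : ∀ m' : ℕ, 1 ≤ m' → ∃ L0 : ℝ, 2 ≤ L0 ∧ ∀ L : ℝ, L0 ≤ L → ∀ R : ℝ, R ≤ L / 10 →
    ∀ (T : ℕ) (r : ℤ), ¬ (3 : ℤ) ∣ r → (3 : ℤ) ^ v ∣ 2 ^ T * a - r → ∀ S : Finset ℤ,
      (∀ x, x ∈ S ↔ (L + R ≤ x ∧ (x : ℝ) < 2 * L) ∧ Odd x ∧ (3 : ℤ) ^ m' ∣ 2 ^ T * x - r ∧ P x) →
      κ * (L / (3 ^ m' * Real.log L)) ≤ (S.card : ℝ)

/-- primes in a class of a window -/
theorem thick_class (q a : ℕ) (hq : 1 ≤ q) (ha : Nat.Coprime a q) : ∃ κ : ℝ, ∃ v : ℕ, ∃ a' : ℤ,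
    Thick (fun x => PrZ x ∧ x.toNat ≡ a [MOD q]) κ v a' := by
  classical
  obtain ⟨v, q', hq3, hqv⟩ := Nat.exists_eq_pow_mul_and_not_dvd (n := q) (by omega) 3 (by norm_num)
  have hq' : Nat.Coprime 3 q' := (Nat.Prime.coprime_iff_not_dvd Nat.prime_three).2 hq3
  have hq'0 : 1 ≤ q' := by
    rcases Nat.eq_zero_or_pos q' with h | h
    · rw [h, mul_zero] at hqv; omega
    · exact h
  obtain ⟨a', ha'1, ha'2⟩ : ∃ a' : ℕ, ¬ 3 ∣ a' ∧ ∀ T : ℕ, ∀ r : ℤ, (3 : ℤ) ^ v ∣ 2 ^ T * a' - r →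
      (3 : ℤ) ^ v ∣ 2 ^ T * a - r := by
    rcases Nat.eq_zero_or_pos v with h | h
    · exact ⟨1, by norm_num, fun T r _ => by rw [h, pow_zero]; exact one_dvd _⟩
    · refine ⟨a, ?_, fun T r h' => h'⟩
      intro h3
      have h4 : 3 ∣ q := (dvd_pow_self 3 (show v ≠ 0 by omega)).trans (by rw [hqv]; exact dvd_mul_right _ _)
      have h5 := Nat.dvd_gcd h3 h4
      rw [ha] at h5
      norm_num at h5
  refine ⟨1 / (2 * (3 ^ v * q')), v, a', fun x hx => hx.1, by positivity, by exact_mod_cast ha'1, ?_⟩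
  intro m' hm'
  obtain ⟨Wq, hWq⟩ : ∃ Wq : ℕ, Wq = 3 ^ (max m' v) * q' := ⟨_, rfl⟩
  have hWq1 : 1 ≤ Wq := by rw [hWq]; exact Nat.pos_of_ne_zero (by positivity)
  obtain ⟨N0, hN02, hN0⟩ := pi_class Wq hWq1
  refine ⟨max (N0 + 1000) (Real.exp 100), by
    refine le_trans ?_ (le_max_left _ _)
    have : (0 : ℝ) ≤ N0 := Nat.cast_nonneg _
    linarith, fun L hL R hR T r hr hra S hS => ?_⟩
  have hL1 : (N0 : ℝ) + 1000 ≤ L := (le_max_left _ _).trans hL
  have hL2 : Real.exp 100 ≤ L := (le_max_right _ _).trans hL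
  have hLN : (0 : ℝ) ≤ N0 := Nat.cast_nonneg _
  have hLpos : 0 < L := by linarith
  have hlogL : 100 ≤ Real.log L := by
    rw [Real.le_log_iff_exp_le hLpos]; exact hL2
  obtain ⟨b, hb, hbc, hbp⟩ := comb_class q a m' T hq ha r hr v q' hqv hq' (ha'2 T r hra) hm'
  rw [← hWq] at hb hbc hbp
  obtain ⟨N1, hN1⟩ : ∃ N1 : ℕ, N1 = ⌊1.1 * L⌋₊ := ⟨_, rfl⟩
  obtain ⟨N2, hN2⟩ : ∃ N2 : ℕ, N2 = ⌈2 * L⌉₊ - 1 := ⟨_, rfl⟩
  have hN1a : (N1 : ℝ) ≤ 1.1 * L := by rw [hN1]; exact Nat.floor_le (by linarith)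
  have hN1b : 1.1 * L < N1 + 1 := by rw [hN1]; exact Nat.lt_floor_add_one _
  have hc1 : 2 * L ≤ ⌈2 * L⌉₊ := Nat.le_ceil _
  have hc2 : (⌈2 * L⌉₊ : ℝ) < 2 * L + 1 := Nat.ceil_lt_add_one (by linarith)
  have hcpos : 1 ≤ ⌈2 * L⌉₊ := by
    have : (1 : ℝ) ≤ ⌈2 * L⌉₊ := by linarith
    exact_mod_cast this
  have hN2c : (N2 : ℝ) = ⌈2 * L⌉₊ - 1 := by rw [hN2, Nat.cast_sub hcpos]; norm_num
  have hN2a : 2 * L - 1 ≤ N2 := by rw [hN2c]; linarith
  have hN2b : (N2 : ℝ) < 2 * L := by rw [hN2c]; linarith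
  have hN1N : N0 ≤ N1 := by
    have : (N0 : ℝ) ≤ N1 := by linarith
    exact_mod_cast this
  have hN2N : N0 ≤ N2 := by
    have : (N0 : ℝ) ≤ N2 := by linarith
    exact_mod_cast this
  set Q : ℕ → Finset ℕ := fun N => (Icc 1 N).filter (fun p => p.Prime ∧ p ≡ b [MOD Wq]) with hQ
  have hsub : ((Q N2 \ Q N1).image (fun p : ℕ => (p : ℤ))) ⊆ S := by
    intro x hx
    rw [mem_image] at hx
    obtain ⟨p, hp, rfl⟩ := hx
    obtain ⟨hp1, h5⟩ := Finset.mem_sdiff.1 hp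
    rw [hQ] at hp1 h5
    simp only [mem_filter, mem_Icc] at hp1 h5
    obtain ⟨⟨h1, h2⟩, h3, h4⟩ := hp1
    have h6 : N1 < p := by
      by_contra hcon
      exact h5 ⟨⟨h1, by omega⟩, h3, h4⟩
    have h6R : (N1 : ℝ) + 1 ≤ p := by exact_mod_cast h6
    have h2R : (p : ℝ) ≤ N2 := by exact_mod_cast h2
    rw [hS]
    refine ⟨⟨?_, ?_⟩, ?_, (hbp p h4).2, ?_⟩
    · push_cast; linarith
    · push_cast; linarith
    · have hp2 : p ≠ 2 := by
        intro h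
        rw [h] at h6R
        push_cast at h6R
        linarith
      have := h3.odd_of_ne_two hp2
      exact_mod_cast this
    · unfold PrZ; rw [Int.toNat_natCast]; exact ⟨h3, (hbp p h4).1⟩
  have hcard1 : ((Q N2).card : ℝ) - (Q N1).card ≤ (S.card : ℝ) := by
    have h1 := card_le_card hsub
    rw [card_image_of_injective _ Nat.cast_injective] at h1
    have h2 := card_le_card_sdiff_add_card (s := Q N2) (t := Q N1)
    have h3 : (Q N2).card ≤ S.card + (Q N1).card := by omega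
    have h3R : ((Q N2).card : ℝ) ≤ (S.card : ℝ) + (Q N1).card := by exact_mod_cast h3
    linarith
  have hb1 := (hN0 N2 hN2N b hb hbc).1
  have hb2 := (hN0 N1 hN1N b hb hbc).2
  have hφ : (0 : ℝ) < (Nat.totient Wq : ℝ) := by
    exact_mod_cast Nat.totient_pos.2 (by omega)
  have hφ3 : (Nat.totient Wq : ℝ) ≤ 3 ^ m' * (3 ^ v * q') := by
    have h1 : Nat.totient Wq ≤ 3 ^ m' * (3 ^ v * q') := by
      refine (Nat.totient_le Wq).trans ?_
      rw [hWq, ← mul_assoc, ← pow_add]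
      apply Nat.mul_le_mul_right
      apply Nat.pow_le_pow_right (by norm_num)
      omega
    exact_mod_cast h1
  set φ := (Nat.totient Wq : ℝ) with hφd
  set ℓ := Real.log L with hℓ
  have hN2log : Real.log N2 ≤ 1.01 * ℓ := by
    have h1 : Real.log N2 ≤ Real.log (2 * L) := Real.log_le_log (by linarith) hN2b.le
    rw [Real.log_mul (by norm_num) hLpos.ne'] at h1
    have := Real.log_two_lt_d9
    linarith
  have hN2logpos : 0 < Real.log N2 := Real.log_pos (by linarith)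
  have hN1log : ℓ ≤ Real.log N1 := Real.log_le_log hLpos (by linarith)
  have g1 : 1.97 * (L / ℓ) ≤ N2 / Real.log N2 := by
    rw [← mul_div_assoc, div_le_div_iff₀ (by linarith) hN2logpos]
    have h1 : 1.97 * L * Real.log N2 ≤ 1.97 * L * (1.01 * ℓ) := mul_le_mul_of_nonneg_left hN2log (by linarith)
    have h2 : (1.99 * L) * ℓ ≤ N2 * ℓ := mul_le_mul_of_nonneg_right (by linarith) (by linarith)
    have h3 : 0 < L * ℓ := by positivity
    linarith
  have g2 : N1 / Real.log N1 ≤ 1.1 * (L / ℓ) := by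
    rw [← mul_div_assoc]
    exact div_le_div₀ (by linarith) hN1a (by linarith) hN1log
  have hLℓ : 0 < L / ℓ := by positivity
  have g3 : 0.99 / φ * (1.97 * (L / ℓ)) ≤ 0.99 / φ * (N2 / Real.log N2) :=
    mul_le_mul_of_nonneg_left g1 (by positivity)
  have g4 : 1.01 / φ * (N1 / Real.log N1) ≤ 1.01 / φ * (1.1 * (L / ℓ)) :=
    mul_le_mul_of_nonneg_left g2 (by positivity)
  have hq'R : (0 : ℝ) < q' := by exact_mod_cast hq'0
  have g5 : 1 / (2 * (3 ^ v * q')) * (L / (3 ^ m' * ℓ)) ≤ (1 / 2) * ((L / ℓ) / φ) := by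
    have e0 : 1 / (2 * (3 ^ v * (q' : ℝ))) * (L / (3 ^ m' * ℓ)) = (1 / 2) * (L / (ℓ * (3 ^ m' * (3 ^ v * q')))) := by
      field_simp
    rw [e0]
    apply mul_le_mul_of_nonneg_left _ (by norm_num)
    rw [div_div]
    apply div_le_div_of_nonneg_left hLpos.le (by positivity)
    exact mul_le_mul_of_nonneg_left hφ3 (by linarith)
  have g6 : 0 < (L / ℓ) / φ := by positivity
  have e1 : 0.99 / φ * (1.97 * (L / ℓ)) = 1.9503 * ((L / ℓ) / φ) := by ring
  have e2 : 1.01 / φ * (1.1 * (L / ℓ)) = 1.111 * ((L / ℓ) / φ) := by ring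
  rw [e1] at g3
  rw [e2] at g4
  linarith

end Pool.Agent.H48C
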