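import Pool.Agent.H48C.FM

/-! Primes in trajectories, part H: the second moment and one stage. -/

set_option autoImplicit false

namespace Pool.Agent.H48C

open Finset Filter Pool.Agent.H320R2.PD Pool.Agent.H499R2.ND

/-- a value with the property `P` at the place `k`, with a typical word -/
def Ind (P : ℤ → Prop) (k : ℕ) (M : ℤ) : Prop := wrd k M ∈ GT k ∧ P (Syr^[k] M)

open Classical in
/-- the second moment, two exponents -/
theorem second_moment_kj : ∃ C : ℝ, 1 ≤ C ∧ ∃ t2 : ℝ, 1 ≤ t2 ∧ ∀ A : ℝ, 0 < A → t2 ≤ Real.log A →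
    ∀ (k j m : ℕ) (c : ℤ), 1 ≤ j → ((j + k : ℕ) : ℝ) ≤ Real.log A / 10 → (m : ℝ) ^ 2 ≤ Real.log A →
    (((Ow A (2 * A) m c).filter (fun M => Ind PrZ k M ∧ Ind PrZ (j + k) M)).card : ℝ) ≤
      C * ((A / 3 ^ m) / Real.log A ^ 2) := by
  obtain ⟨C1, hC1, t0, ht0, hp⟩ := pair_word
  obtain ⟨C2, hC2, hms⟩ := mean_sig
  refine ⟨C1 * C2, by nlinarith, max t0 1000, ht0.trans (le_max_left _ _), ?_⟩
  intro A hA ht k j m c hj hjk hm
  have ht0' : t0 ≤ Real.log A := (le_max_left _ _).trans ht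
  have ht1 : 1000 ≤ Real.log A := (le_max_right _ _).trans ht
  set t := Real.log A with htd
  have hsub : (Ow A (2 * A) m c).filter (fun M => Ind PrZ k M ∧ Ind PrZ (j + k) M) ⊆
      (GT (j + k)).biUnion (fun u => (Ow A (2 * A) m c).filter
        (fun M => wrd (j + k) M = u ∧ PrZ (Syr^[k] M) ∧ PrZ (Syr^[j + k] M))) := by
    intro M hM
    rw [mem_filter] at hM
    rw [mem_biUnion]
    exact ⟨wrd (j + k) M, hM.2.2.1, by rw [mem_filter]; exact ⟨hM.1, rfl, hM.2.1.2, hM.2.2.2⟩⟩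
  set f : List ℕ → ℝ := fun u => sig ⌈A⌉₊ (Wo (u.take j)) * (A / 3 ^ m * wwt u) / t ^ 2 with hf
  have hf0 : ∀ u, 0 ≤ f u := by
    intro u
    rw [hf]; simp only
    have e1 := one_le_sig ⌈A⌉₊ (Wo (u.take j))
    have e2 := Pool.Agent.H320R2.PD.wwt_nonneg u
    have e3 : 0 ≤ sig ⌈A⌉₊ (Wo (u.take j)) := by linarith
    positivity
  have hone : ∀ u ∈ GT (j + k), (((Ow A (2 * A) m c).filter
        (fun M => wrd (j + k) M = u ∧ PrZ (Syr^[k] M) ∧ PrZ (Syr^[j + k] M))).card : ℝ) ≤ C1 * f u := by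
    intro u hu
    obtain ⟨h1, h2, h3⟩ := mem_GT.1 hu
    obtain ⟨hl, he⟩ := FW_props h1
    have hu1 : u = u.take j ++ u.drop j := (List.take_append_drop j u).symm
    have hs := size_bound ht1 hjk hm h3
    have hsz : (2 : ℝ) ^ ((u.take j ++ u.drop j).sum) * 3 ^ m ≤ √A := by
      rw [← hu1]
      refine hs.trans ?_
      apply Real.le_sqrt_of_sq_le
      rw [← Real.exp_nat_mul]
      calc Real.exp ((2 : ℕ) * (t / 4)) ≤ Real.exp t := Real.exp_le_exp.2 (by push_cast; linarith)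
        _ = A := Real.exp_log hA
    have h4 := hp A hA ht0' k j m c (u.take j) (u.drop j) (by rw [List.length_drop, hl]; omega)
      (by rw [List.length_take, hl]; omega) hsz
    rw [← wwt_append, ← hu1] at h4
    exact h4
  calc (((Ow A (2 * A) m c).filter (fun M => Ind PrZ k M ∧ Ind PrZ (j + k) M)).card : ℝ)
      ≤ (((GT (j + k)).biUnion (fun u => (Ow A (2 * A) m c).filter
        (fun M => wrd (j + k) M = u ∧ PrZ (Syr^[k] M) ∧ PrZ (Syr^[j + k] M)))).card : ℝ) := by
        exact_mod_cast card_le_card hsub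
    _ ≤ ∑ u ∈ GT (j + k), (((Ow A (2 * A) m c).filter
        (fun M => wrd (j + k) M = u ∧ PrZ (Syr^[k] M) ∧ PrZ (Syr^[j + k] M))).card : ℝ) := by
        exact_mod_cast card_biUnion_le
    _ ≤ ∑ u ∈ GT (j + k), C1 * f u := sum_le_sum hone
    _ ≤ ∑ u ∈ FW (3 * (j + k)) (j + k), C1 * f u := by
        apply sum_le_sum_of_subset_of_nonneg
        · intro u hu; exact (mem_GT.1 hu).1
        · intro u _ _; exact mul_nonneg (by linarith) (hf0 u)
    _ = ∑ v ∈ FW (3 * (j + k)) j, ∑ w ∈ FW (3 * (j + k)) k, C1 * (A / 3 ^ m / t ^ 2) *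
          (wwt v * sig ⌈A⌉₊ (Wo v)) * wwt w := by
        rw [sum_FW_add]
        apply sum_congr rfl
        intro v hv
        apply sum_congr rfl
        intro w _
        rw [hf]
        simp only
        have : (v ++ w).take j = v := by
          rw [List.take_append_of_le_length (by rw [(FW_props hv).1]), List.take_of_length_le (by rw [(FW_props hv).1])]
        rw [this, wwt_append]
        ring
    _ = C1 * (A / 3 ^ m / t ^ 2) * (∑ v ∈ FW (3 * (j + k)) j, wwt v * sig ⌈A⌉₊ (Wo v)) *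
          ∑ w ∈ FW (3 * (j + k)) k, wwt w := by
        rw [mul_assoc (C1 * (A / 3 ^ m / t ^ 2)), sum_mul_sum, mul_sum]
        apply sum_congr rfl
        intro v _
        rw [mul_sum]
        apply sum_congr rfl
        intro w _
        ring
    _ ≤ C1 * (A / 3 ^ m / t ^ 2) * C2 * 1 := by
        have h1 := hms (3 * (j + k)) j ⌈A⌉₊ hj
        have h2 := sum_wwt_le (3 * (j + k)) k
        have h3 : 0 ≤ ∑ w ∈ FW (3 * (j + k)) k, wwt w :=
          sum_nonneg fun w _ => Pool.Agent.H320R2.PD.wwt_nonneg w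
        apply mul_le_mul _ h2 h3 (by positivity)
        exact mul_le_mul_of_nonneg_left h1 (by positivity)
    _ = _ := by ring

open Classical in
/-- one stage: a positive proportion meets a prime -/
theorem one_stage {P : ℤ → Prop} {κ0 : ℝ} {v : ℕ} {a' : ℤ} (hP : Thick P κ0 v a') : ∃ φ : ℝ, 0 < φ ∧ ∃ t3 : ℝ, 1000 ≤ t3 ∧ ∀ A : ℝ, 0 < A → t3 ≤ Real.log A →
    ∀ (m : ℕ) (c : ℤ), (m : ℝ) ^ 2 ≤ Real.log A →
    φ * (A / 3 ^ m) ≤ (((Ow A (2 * A) m c).filter
      (fun M => ∃ k : ℕ, (k : ℝ) ≤ Real.log A / 10 ∧ Ind P k M)).card : ℝ) := by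
  obtain ⟨c1, hc1, t1, ht1, hfm⟩ := first_moment_k hP
  obtain ⟨C, hC, t2, ht2, hsm⟩ := second_moment_kj
  obtain ⟨c0, hc0⟩ : ∃ c0 : ℝ, c0 = c1 / 20 := ⟨_, rfl⟩
  have hc00 : 0 < c0 := by rw [hc0]; positivity
  refine ⟨c0 ^ 2 / (c0 + C), by positivity, max (max t1 t2) 1000, le_max_right _ _, ?_⟩
  intro A hA ht m c hm
  have ht1' : t1 ≤ Real.log A := (le_max_left _ _).trans ((le_max_left _ _).trans ht)
  have ht2' : t2 ≤ Real.log A := (le_max_right _ _).trans ((le_max_left _ _).trans ht)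
  have ht3 : 1000 ≤ Real.log A := (le_max_right _ _).trans ht
  set t := Real.log A with htd
  have htpos : 0 < t := by linarith
  obtain ⟨K0, hK0⟩ : ∃ K0 : ℕ, K0 = ⌊t / 20⌋₊ := ⟨_, rfl⟩
  have hK1 : (K0 : ℝ) ≤ t / 20 := by rw [hK0]; exact Nat.floor_le (by positivity)
  have hK2 : t / 20 - 1 < K0 := by rw [hK0]; linarith [Nat.lt_floor_add_one (t / 20)]
  set Ks := Icc K0 (2 * K0) with hKs
  set S := Ow A (2 * A) m c with hS
  set ind : ℕ → ℤ → ℝ := fun k M => if Ind P k M then 1 else 0 with hind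
  set X : ℤ → ℝ := fun M => ∑ k ∈ Ks, ind k M with hX
  have hind0 : ∀ k M, 0 ≤ ind k M := by intro k M; rw [hind]; simp only; split_ifs <;> norm_num
  have hX0 : ∀ M, 0 ≤ X M := fun M => sum_nonneg fun k _ => hind0 k M
  set a := A / 3 ^ m with ha
  have ha0 : 0 < a := by positivity
  have hkr : ∀ k ∈ Ks, t / 20 - 1 ≤ (k : ℝ) ∧ (k : ℝ) ≤ t / 10 := by
    intro k hk
    rw [hKs, mem_Icc] at hk
    have h1 : (K0 : ℝ) ≤ k := by exact_mod_cast hk.1
    have h2 : (k : ℝ) ≤ 2 * K0 := by exact_mod_cast hk.2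
    constructor <;> linarith
  have hcard : (Ks.card : ℝ) = K0 + 1 := by
    rw [hKs, Nat.card_Icc]
    have : 2 * K0 + 1 - K0 = K0 + 1 := by omega
    rw [this]; push_cast; ring
  -- first moment
  have hμ : c0 * a ≤ ∑ M ∈ S, X M := by
    rw [hX]
    simp only
    rw [sum_comm]
    have h1 : ∀ k ∈ Ks, c1 * (a / t) ≤ ∑ M ∈ S, ind k M := by
      intro k hk
      have h2 := hfm A hA ht1' k m c (hkr k hk).1 (hkr k hk).2 hm
      refine h2.trans (le_of_eq ?_)
      rw [hind]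
      simp only
      rw [sum_boole]
      norm_cast
      exact congrArg Finset.card (filter_congr fun M _ => Iff.rfl)
    have h2 := sum_le_sum h1
    rw [sum_const, nsmul_eq_mul, hcard] at h2
    refine le_trans ?_ h2
    have h3 : t / 20 * (c1 * (a / t)) = c0 * a := by rw [hc0]; field_simp
    rw [← h3]
    apply mul_le_mul_of_nonneg_right _ (by positivity)
    linarith
  -- second moment
  have hpair : ∀ k ∈ Ks, ∀ k' ∈ Ks, k ≠ k' → ∑ M ∈ S, ind k M * ind k' M ≤ C * (a / t ^ 2) := by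
    have h1 : ∀ k ∈ Ks, ∀ k' ∈ Ks, k < k' → ∑ M ∈ S, ind k M * ind k' M ≤ C * (a / t ^ 2) := by
      intro k _ k' hk' hlt
      obtain ⟨j, rfl⟩ := Nat.exists_eq_add_of_lt hlt
      have e1 : k + j + 1 = (j + 1) + k := by ring
      rw [e1] at hk' ⊢
      have h2 := hsm A hA ht2' k (j + 1) m c (by omega) (hkr _ hk').2 hm
      refine le_trans (le_of_eq ?_) ((Nat.cast_le.2 (card_le_card (monotone_filter_right S
        (p := fun M => Ind P k M ∧ Ind P (j + 1 + k) M)
        (q := fun M => Ind PrZ k M ∧ Ind PrZ (j + 1 + k) M) (by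
          intro M _ h
          exact ⟨⟨h.1.1, hP.prime _ h.1.2⟩, ⟨h.2.1, hP.prime _ h.2.2⟩⟩)))).trans h2)
      rw [← sum_boole]
      apply sum_congr rfl
      intro M _
      rw [hind]
      simp only
      by_cases g1 : Ind P k M <;> by_cases g2 : Ind P (j + 1 + k) M <;> simp [g1, g2]
    intro k hk k' hk' hne
    rcases Nat.lt_or_gt_of_ne hne with h | h
    · exact h1 k hk k' hk' h
    · have h2 := h1 k' hk' k hk h
      refine le_trans (le_of_eq ?_) h2
      apply sum_congr rfl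
      intro M _; ring
  have hν : ∑ M ∈ S, X M ^ 2 ≤ (∑ M ∈ S, X M) + C * a := by
    have h1 : ∑ M ∈ S, X M ^ 2 = ∑ k ∈ Ks, ∑ k' ∈ Ks, ∑ M ∈ S, ind k M * ind k' M := by
      calc ∑ M ∈ S, X M ^ 2 = ∑ M ∈ S, ∑ k ∈ Ks, ∑ k' ∈ Ks, ind k M * ind k' M := by
            apply sum_congr rfl
            intro M _
            rw [hX]
            simp only
            rw [sq, sum_mul_sum]
        _ = _ := by
            rw [sum_comm]
            apply sum_congr rfl
            intro k _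
            rw [sum_comm]
    rw [h1]
    have h2 : ∀ k ∈ Ks, ∑ k' ∈ Ks, ∑ M ∈ S, ind k M * ind k' M ≤
        (∑ M ∈ S, ind k M) + (K0 + 1) * (C * (a / t ^ 2)) := by
      intro k hk
      rw [← add_sum_erase Ks _ hk]
      apply add_le_add
      · apply sum_le_sum
        intro M _
        rw [hind]
        simp only
        split_ifs <;> norm_num
      · calc ∑ k' ∈ Ks.erase k, ∑ M ∈ S, ind k M * ind k' M ≤ ∑ k' ∈ Ks.erase k, C * (a / t ^ 2) := by
              apply sum_le_sum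
              intro k' hk'
              rw [mem_erase] at hk'
              exact hpair k hk k' hk'.2 (Ne.symm hk'.1)
          _ ≤ _ := by
              rw [sum_const, nsmul_eq_mul]
              apply mul_le_mul_of_nonneg_right _ (by positivity)
              rw [← hcard]
              exact_mod_cast card_le_card (erase_subset _ _)
    refine (sum_le_sum h2).trans ?_
    rw [sum_add_distrib, sum_const, nsmul_eq_mul, hcard]
    have h3 : ∑ k ∈ Ks, ∑ M ∈ S, ind k M = ∑ M ∈ S, X M := by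
      rw [hX]; simp only; rw [sum_comm]
    rw [h3]
    apply add_le_add_right
    have h4 : ((K0 : ℝ) + 1) * ((K0 + 1) * (C * (a / t ^ 2))) = ((K0 + 1) / t) ^ 2 * (C * a) := by
      field_simp
    rw [h4]
    have h5 : ((K0 : ℝ) + 1) / t ≤ 1 := by
      rw [div_le_one htpos]; linarith
    have h6 : (((K0 : ℝ) + 1) / t) ^ 2 ≤ 1 := pow_le_one₀ (by positivity) h5
    have h7 : 0 ≤ C * a := by positivity
    nlinarith
  -- Cauchy-Schwarz
  set S1 := S.filter (fun M => ∃ k : ℕ, (k : ℝ) ≤ t / 10 ∧ Ind P k M) with hS1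
  have hzero : ∀ M ∈ S, M ∉ S1 → X M = 0 := by
    intro M hM hM1
    rw [hX]
    simp only
    apply sum_eq_zero
    intro k hk
    rw [hind]
    simp only
    rw [if_neg]
    intro hI
    exact hM1 (mem_filter.2 ⟨hM, k, (hkr k hk).2, hI⟩)
  have hS1S : S1 ⊆ S := filter_subset _ _
  have hsum1 : ∑ M ∈ S1, X M = ∑ M ∈ S, X M := sum_subset hS1S hzero
  have hsum2 : ∑ M ∈ S1, X M ^ 2 = ∑ M ∈ S, X M ^ 2 := by
    apply sum_subset hS1S
    intro M hM hM1
    rw [hzero M hM hM1]; norm_num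
  have hcs := sq_sum_le_card_mul_sum_sq (s := S1) (f := X)
  rw [hsum1, hsum2] at hcs
  set μ := ∑ M ∈ S, X M with hμd
  have hμ0 : 0 < μ := lt_of_lt_of_le (by positivity) hμ
  have hcs2 : μ ^ 2 ≤ (S1.card : ℝ) * (μ + C * a) :=
    hcs.trans (mul_le_mul_of_nonneg_left hν (Nat.cast_nonneg _))
  have hCa : 0 < C * a := by positivity
  have h1 : μ ^ 2 / (μ + C * a) ≤ S1.card := by
    rw [div_le_iff₀ (by positivity)]; exact hcs2
  refine le_trans ?_ h1
  rw [le_div_iff₀ (by positivity)]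
  have h2 : c0 ^ 2 / (c0 + C) * a * (μ + C * a) * (c0 + C) = c0 ^ 2 * a * (μ + C * a) := by
    field_simp
  have h3 : c0 ^ 2 * a * (μ + C * a) ≤ μ ^ 2 * (c0 + C) := by
    have h4 : c0 * (c0 * a) * μ ≤ c0 * μ * μ := by
      have := mul_le_mul_of_nonneg_left hμ (by positivity : 0 ≤ c0 * μ)
      linarith
    have h5 : (c0 * a) * (c0 * a) * C ≤ μ * μ * C := by
      apply mul_le_mul_of_nonneg_right _ (by linarith)
      exact mul_le_mul hμ hμ (by positivity) hμ0.le
    nlinarith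
  have h6 : c0 ^ 2 / (c0 + C) * a * (μ + C * a) * (c0 + C) ≤ μ ^ 2 * (c0 + C) := by
    rw [h2]; exact h3
  exact le_of_mul_le_mul_right h6 (by positivity)

end Pool.Agent.H48C
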