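import Pool.Agent.W123.RP.Mert
import Pool.Agent.H373R2.T7.Fund

/-! Primes in trajectories, part C: upper bound sieve for pairs of linear forms whose leading
coefficients are products of powers of `2` and `3`. -/

set_option autoImplicit false

namespace Pool.Agent.H48C

open Finset Filter Topology Pool.Agent.H373R2.T7

/-- the local factor of the exceptional primes -/
noncomputable def sig (y W : ℕ) : ℝ := ∏ p ∈ (pz y).filter (fun p => 5 ≤ p ∧ p ∣ W), (1 + 2 / (p : ℝ))

theorem one_le_prod_real {ι : Type*} (s : Finset ι) (f : ι → ℝ) (h : ∀ i ∈ s, 1 ≤ f i) :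
    1 ≤ ∏ i ∈ s, f i :=
  Finset.prod_induction f (fun x => 1 ≤ x) (fun _ _ ha hb => one_le_mul_of_one_le_of_one_le ha hb) le_rfl h

theorem one_le_sig (y W : ℕ) : 1 ≤ sig y W := by
  unfold sig
  apply one_le_prod_real
  intro p _
  have : (0 : ℝ) ≤ 2 / (p : ℝ) := by positivity
  linarith

theorem sig_mono {y z : ℕ} (h : y ≤ z) (W : ℕ) : sig y W ≤ sig z W := by
  classical
  unfold sig
  have hsub : (pz y).filter (fun p => 5 ≤ p ∧ p ∣ W) ⊆ (pz z).filter (fun p => 5 ≤ p ∧ p ∣ W) := by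
    intro p hp
    rw [mem_filter, mem_pz] at hp ⊢
    exact ⟨⟨hp.1.1.trans h, hp.1.2⟩, hp.2⟩
  rw [← prod_sdiff hsub]
  apply le_mul_of_one_le_left
  · apply prod_nonneg
    intro p _
    positivity
  · apply one_le_prod_real
    intro p _
    have : (0 : ℝ) ≤ 2 / (p : ℝ) := by positivity
    linarith

/-- the sieve conditions -/
def QQ (x a y b : ℕ) (p n : ℕ) : Prop := 5 ≤ p ∧ (p ∣ x + a * n ∨ p ∣ y + b * n)

theorem dvd_mod (x a p n : ℕ) : p ∣ x + a * n ↔ p ∣ x + a * (n % p) := by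
  have h : x + a * n = x + a * (n % p) + p * (a * (n / p)) := by
    have := Nat.mod_add_div n p
    calc x + a * n = x + a * (n % p + p * (n / p)) := by rw [this]
      _ = _ := by ring
  rw [h]
  exact (Nat.dvd_add_left (Dvd.intro _ rfl))

open Classical in
theorem roots_le {x a p : ℕ} (hp : p.Prime) (ha : ¬ p ∣ a) :
    ((range p).filter (fun r => p ∣ x + a * r)).card ≤ 1 := by
  rw [card_le_one]
  intro r hr s hs
  rw [mem_filter, mem_range] at hr hs
  wlog hrs : r ≤ s generalizing r s with H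
  · exact (H s hs r hr (by omega)).symm
  have h1 : p ∣ (x + a * s) - (x + a * r) := Nat.dvd_sub hs.2 hr.2
  have h2 : (x + a * s) - (x + a * r) = a * (s - r) := by
    rw [Nat.add_sub_add_left, Nat.mul_sub]
  rw [h2] at h1
  have h3 := (hp.dvd_mul.1 h1).resolve_left ha
  rcases Nat.eq_zero_or_pos (s - r) with h | h
  · omega
  · have := Nat.le_of_dvd h h3
    omega

theorem root_exists {x a p : ℕ} (hp : p.Prime) (ha : ¬ p ∣ a) : ∃ r < p, p ∣ x + a * r := by
  have := Fact.mk hp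
  have ha' : (a : ZMod p) ≠ 0 := by
    intro h
    exact ha ((ZMod.natCast_eq_zero_iff a p).1 h)
  refine ⟨(-(x : ZMod p) / a).val, ZMod.val_lt _, ?_⟩
  rw [← ZMod.natCast_eq_zero_iff]
  push_cast
  rw [ZMod.natCast_zmod_val]
  field_simp
  ring

theorem QQ_per (x a y b : ℕ) (hab : ∀ p : ℕ, p.Prime → 5 ≤ p → ¬ p ∣ a ∧ ¬ p ∣ b) :
    PerB (QQ x a y b) 2 := by
  classical
  refine ⟨fun p n => ?_, fun p hp => ?_⟩
  · unfold QQ
    rw [dvd_mod x a p n, dvd_mod y b p n]
  · unfold nuB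
    by_cases h5 : 5 ≤ p
    · obtain ⟨ha, hb⟩ := hab p hp h5
      have h1 := roots_le (x := x) hp ha
      have h2 := roots_le (x := y) hp hb
      calc ((range p).filter (fun r => QQ x a y b p r)).card
          ≤ ((range p).filter (fun r => p ∣ x + a * r) ∪ (range p).filter (fun r => p ∣ y + b * r)).card := by
            apply card_le_card
            intro r hr
            rw [mem_filter] at hr
            rw [mem_union, mem_filter, mem_filter]
            rcases hr.2.2 with h | h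
            · exact Or.inl ⟨hr.1, h⟩
            · exact Or.inr ⟨hr.1, h⟩
        _ ≤ _ := (card_union_le _ _).trans (by omega)
    · have : (range p).filter (fun r => QQ x a y b p r) = ∅ := by
        rw [filter_eq_empty_iff]
        intro r _ h
        exact h5 h.1
      rw [this]; simp

theorem nuB_ge {x a y b p W : ℕ} (hp : p.Prime) (h5 : 5 ≤ p) (ha : ¬ p ∣ a) (hb : ¬ p ∣ b)
    (hW : (p : ℤ) ∣ (a : ℤ) * y - b * x → p ∣ W) :
    (if p ∣ W then 1 else 2) ≤ nuB (QQ x a y b) p := by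
  classical
  obtain ⟨r, hr, hr1⟩ := root_exists (x := x) hp ha
  obtain ⟨s, hs, hs1⟩ := root_exists (x := y) hp hb
  unfold nuB
  split_ifs with h
  · rw [Nat.one_le_iff_ne_zero, ← Nat.pos_iff_ne_zero, card_pos]
    exact ⟨r, by rw [mem_filter, mem_range]; exact ⟨hr, h5, Or.inl hr1⟩⟩
  · have hne : r ≠ s := by
      rintro rfl
      apply h
      apply hW
      have e1 : (p : ℤ) ∣ x + a * r := by exact_mod_cast hr1
      have e2 : (p : ℤ) ∣ y + b * r := by exact_mod_cast hs1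
      have : (a : ℤ) * y - b * x = a * (y + b * r) - b * (x + a * r) := by ring
      rw [this]
      exact dvd_sub (e2.mul_left _) (e1.mul_left _)
    have h2 : ({r, s} : Finset ℕ) ⊆ (range p).filter (fun r => QQ x a y b p r) := by
      intro t ht
      rw [mem_insert, mem_singleton] at ht
      rw [mem_filter, mem_range]
      rcases ht with rfl | rfl
      · exact ⟨hr, h5, Or.inl hr1⟩
      · exact ⟨hs, h5, Or.inr hs1⟩
    have h3 := card_le_card h2
    rw [card_pair hne] at h3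
    exact h3

/-- the sieve product -/
theorem prod_le (x a y b W : ℕ) (hab : ∀ p : ℕ, p.Prime → 5 ≤ p → ¬ p ∣ a ∧ ¬ p ∣ b)
    (hW : ∀ p : ℕ, p.Prime → 5 ≤ p → (p : ℤ) ∣ (a : ℤ) * y - b * x → p ∣ W) (z : ℕ) (hz : 3 ≤ z) :
    ∏ p ∈ pz z, (1 - (nuB (QQ x a y b) p : ℝ) / p) ≤ 9 * (Vz z) ^ 2 * sig z W := by
  classical
  have hfac : ∀ p ∈ pz z, (1 - (nuB (QQ x a y b) p : ℝ) / p) ≤
      ((1 - 1 / (p : ℝ)) ^ 2 * (if p = 2 then 4 else 1)) * (if p = 3 then 9 / 4 else 1) *
        (if 5 ≤ p ∧ p ∣ W then (1 + 2 / (p : ℝ)) else 1) := by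
    intro p hp
    obtain ⟨h1, h2⟩ := mem_pz.1 hp
    have hp0 : (0 : ℝ) < p := by exact_mod_cast h2.pos
    have hnu0 : (0 : ℝ) ≤ (nuB (QQ x a y b) p : ℝ) / p := by positivity
    by_cases h5 : 5 ≤ p
    · have h5R : (5 : ℝ) ≤ p := by exact_mod_cast h5
      obtain ⟨ha, hb⟩ := hab p h2 h5
      have h3 := nuB_ge (x := x) (y := y) h2 h5 ha hb (hW p h2 h5)
      rw [if_neg (by omega), if_neg (by omega), mul_one, mul_one]
      by_cases hpW : p ∣ W
      · rw [if_pos hpW] at h3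
        rw [if_pos ⟨h5, hpW⟩]
        have h4 : (1 : ℝ) ≤ (nuB (QQ x a y b) p : ℝ) := by exact_mod_cast h3
        have h6 : 1 / (p : ℝ) ≤ (nuB (QQ x a y b) p : ℝ) / p := div_le_div_of_nonneg_right h4 hp0.le
        set t : ℝ := 1 / (p : ℝ) with ht
        have ht0 : 0 < t := by positivity
        have ht5 : t ≤ 1 / 5 := by rw [ht]; exact one_div_le_one_div_of_le (by norm_num) h5R
        have e1 : (2 : ℝ) / p = 2 * t := by rw [ht]; ring
        rw [e1]
        have : 1 - t ≤ (1 - t) ^ 2 * (1 + 2 * t) := by nlinarith [mul_nonneg ht0.le (by linarith : 0 ≤ 1 - 2 * t), mul_pos ht0 ht0]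
        linarith
      · rw [if_neg hpW] at h3
        rw [if_neg (fun h => hpW h.2), mul_one]
        have h4 : (2 : ℝ) ≤ (nuB (QQ x a y b) p : ℝ) := by exact_mod_cast h3
        have h6 : 2 / (p : ℝ) ≤ (nuB (QQ x a y b) p : ℝ) / p := div_le_div_of_nonneg_right h4 hp0.le
        have e1 : (1 - 1 / (p : ℝ)) ^ 2 = 1 - 2 / p + (1 / p) ^ 2 := by ring
        rw [e1]
        have : (0 : ℝ) ≤ (1 / (p : ℝ)) ^ 2 := by positivity
        linarith
    · have hp23 : p = 2 ∨ p = 3 := by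
        have := h2.two_le
        interval_cases p
        · left; rfl
        · right; rfl
        · exact absurd h2 (by norm_num)
      rw [if_neg (fun h : 5 ≤ p ∧ p ∣ W => h5 h.1), mul_one]
      rcases hp23 with rfl | rfl
      · norm_num at hnu0 ⊢
        linarith
      · norm_num at hnu0 ⊢
        linarith
  have hnn : ∀ p ∈ pz z, 0 ≤ (1 - (nuB (QQ x a y b) p : ℝ) / p) := by
    intro p hp
    obtain ⟨h1, h2⟩ := mem_pz.1 hp
    have hp0 : (0 : ℝ) < p := by exact_mod_cast h2.pos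
    rw [sub_nonneg, div_le_one hp0]
    exact_mod_cast nuB_le _ _
  refine (prod_le_prod hnn hfac).trans (le_of_eq ?_)
  rw [prod_mul_distrib, prod_mul_distrib, prod_mul_distrib, prod_pow]
  rw [prod_ite_eq' (pz z) 2 (fun _ => (4 : ℝ)), prod_ite_eq' (pz z) 3 (fun _ => (9 / 4 : ℝ))]
  rw [if_pos (mem_pz.2 ⟨by omega, Nat.prime_two⟩), if_pos (mem_pz.2 ⟨by omega, Nat.prime_three⟩)]
  rw [← prod_filter]
  unfold Vz sig
  ring

/-- few small values -/
theorem small_card (x a z X : ℕ) (ha : 1 ≤ a) :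
    ((range X).filter (fun n => x + a * n ≤ z)).card ≤ z + 1 := by
  have : (range X).filter (fun n => x + a * n ≤ z) ⊆ range (z + 1) := by
    intro n hn
    rw [mem_filter] at hn
    rw [mem_range]
    have : n ≤ a * n := Nat.le_mul_of_pos_left n ha
    omega
  calc _ ≤ (range (z + 1)).card := card_le_card this
    _ = z + 1 := card_range _

open Classical in
/-- a lower bound of the values and the sifted set -/
theorem sift_card (x a y b z X : ℕ) (ha : 1 ≤ a) (hb : 1 ≤ b) :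
    ((range X).filter (fun n => (x + a * n).Prime ∧ (y + b * n).Prime)).card ≤
      ((Icc 1 X).filter (fun n : ℕ => ∀ p ∈ pz z, ¬ QQ x a y b p n)).card + (2 * z + 3) := by
  have hsub : (range X).filter (fun n => (x + a * n).Prime ∧ (y + b * n).Prime) ⊆
      ((Icc 1 X).filter (fun n : ℕ => ∀ p ∈ pz z, ¬ QQ x a y b p n)) ∪
        ((range X).filter (fun n => x + a * n ≤ z) ∪ ((range X).filter (fun n => y + b * n ≤ z) ∪ {0})) := by
    intro n hn
    rw [mem_filter, mem_range] at hn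
    obtain ⟨h1, h2, h3⟩ := hn
    rw [mem_union, mem_union, mem_union, mem_filter, mem_filter, mem_filter, mem_singleton, mem_Icc,
      mem_range]
    by_cases h4 : x + a * n ≤ z
    · exact Or.inr (Or.inl ⟨h1, h4⟩)
    by_cases h5 : y + b * n ≤ z
    · exact Or.inr (Or.inr (Or.inl ⟨h1, h5⟩))
    by_cases h6 : n = 0
    · exact Or.inr (Or.inr (Or.inr h6))
    refine Or.inl ⟨⟨by omega, by omega⟩, fun p hp => ?_⟩
    obtain ⟨h7, h8⟩ := mem_pz.1 hp
    rintro ⟨h9, h10 | h10⟩
    · have := (Nat.prime_dvd_prime_iff_eq h8 h2).1 h10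
      omega
    · have := (Nat.prime_dvd_prime_iff_eq h8 h3).1 h10
      omega
  refine (card_le_card hsub).trans ((card_union_le _ _).trans ?_)
  have h1 := card_union_le ((range X).filter (fun n => x + a * n ≤ z))
    ((range X).filter (fun n => y + b * n ≤ z) ∪ {0})
  have h2 := card_union_le ((range X).filter (fun n => y + b * n ≤ z)) {0}
  have h3 := small_card x a z X ha
  have h4 := small_card y b z X hb
  rw [card_singleton] at h2
  omega

/-- upper bound sieve for pairs -/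
theorem pair_sieve : ∃ C : ℝ, 1 ≤ C ∧ ∃ X0 : ℕ, 3 ≤ X0 ∧ ∀ X : ℕ, X0 ≤ X → ∀ x a y b W : ℕ,
    1 ≤ a → 1 ≤ b → (∀ p : ℕ, p.Prime → 5 ≤ p → ¬ p ∣ a ∧ ¬ p ∣ b) →
    (∀ p : ℕ, p.Prime → 5 ≤ p → (p : ℤ) ∣ (a : ℤ) * y - b * x → p ∣ W) →
    (((range X).filter (fun n => (x + a * n).Prime ∧ (y + b * n).Prime)).card : ℝ) ≤
      C * sig X W * (X / Real.log X ^ 2) := by
  classical
  obtain ⟨K, x0, hK, hS⟩ := sys_fund 2 (by norm_num) 1 one_pos
  obtain ⟨c1, C1, hc1, hC1, hV⟩ := Pool.Agent.W123.RP.Vz_bounds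
  obtain ⟨κ, hκ⟩ : ∃ κ : ℕ, κ = max K 2 := ⟨_, rfl⟩
  have hκ2 : 2 ≤ κ := by rw [hκ]; exact le_max_right _ _
  have hκK : K ≤ κ := by rw [hκ]; exact le_max_left _ _
  have hκR : (2 : ℝ) ≤ κ := by exact_mod_cast hκ2
  have hκ0 : (0 : ℝ) < κ := by linarith
  set u : ℕ → ℝ := fun X => (X : ℝ) ^ (1 / (2 * κ : ℝ)) with hu
  have hutop : Tendsto u atTop atTop :=
    (tendsto_rpow_atTop (by positivity)).comp tendsto_natCast_atTop_atTop
  have hsq : Tendsto (fun X : ℕ => Real.sqrt (X : ℝ)) atTop atTop :=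
    Real.tendsto_sqrt_atTop.comp tendsto_natCast_atTop_atTop
  have hlog : ∀ᶠ X : ℕ in atTop, Real.log (Real.sqrt (X : ℝ)) ^ 2 ≤ (1 / 40) * Real.sqrt (X : ℝ) := by
    have h1 := (Real.isLittleO_pow_log_id_atTop (n := 2)).bound (by norm_num : (0 : ℝ) < 1 / 40)
    filter_upwards [hsq.eventually h1, hsq.eventually_ge_atTop 0] with X hX h0
    rw [Real.norm_eq_abs, Real.norm_eq_abs, id, abs_of_nonneg h0, abs_of_nonneg (by positivity)] at hX
    exact hX
  obtain ⟨X0, hX0⟩ := eventually_atTop.1 ((hutop.eventually_ge_atTop ((max x0 5 : ℕ) : ℝ)).and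
    (hlog.and ((eventually_ge_atTop 9).and (hutop.eventually_ge_atTop 3))))
  refine ⟨72 * (C1 * κ) ^ 2 + 1, by nlinarith [sq_nonneg (C1 * κ)], max X0 3, le_max_right _ _,
    fun X hX x a y b W ha hb hab hW => ?_⟩
  obtain ⟨h1, h2, h3, h4⟩ := hX0 X ((le_max_left _ _).trans hX)
  have hX9 : (9 : ℝ) ≤ X := by exact_mod_cast h3
  have hXpos : (0 : ℝ) < X := by linarith
  obtain ⟨z, hz⟩ : ∃ z : ℕ, z = ⌊(X : ℝ) ^ (1 / (κ : ℝ))⌋₊ := ⟨_, rfl⟩
  have hpow : (X : ℝ) ^ (1 / (κ : ℝ)) = u X ^ 2 := by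
    rw [hu]
    simp only
    rw [← Real.rpow_natCast, ← Real.rpow_mul hXpos.le]
    congr 1
    push_cast
    field_simp
  have hz1 : (z : ℝ) ≤ u X ^ 2 := by
    rw [hz, ← hpow]; exact Nat.floor_le (by positivity)
  have hz2 : u X ^ 2 - 1 < z := by
    rw [hz, ← hpow]; linarith [Nat.lt_floor_add_one ((X : ℝ) ^ (1 / (κ : ℝ)))]
  have hzu : u X ≤ z := by nlinarith
  have hzx0 : x0 ≤ z := by
    have : ((max x0 5 : ℕ) : ℝ) ≤ z := h1.trans hzu
    have h5 : max x0 5 ≤ z := by exact_mod_cast this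
    exact (le_max_left _ _).trans h5
  have hz5 : 5 ≤ z := by
    have : ((max x0 5 : ℕ) : ℝ) ≤ z := h1.trans hzu
    have h5 : max x0 5 ≤ z := by exact_mod_cast this
    exact (le_max_right _ _).trans h5
  have hzκ : z ^ κ ≤ X := by
    have : ((z ^ κ : ℕ) : ℝ) ≤ X := by
      push_cast
      calc (z : ℝ) ^ κ ≤ ((X : ℝ) ^ (1 / (κ : ℝ))) ^ κ :=
            pow_le_pow_left₀ (Nat.cast_nonneg _) (by rw [hpow]; exact hz1) κ
        _ = X := by
            rw [← Real.rpow_natCast, ← Real.rpow_mul hXpos.le]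
            rw [one_div_mul_cancel hκ0.ne', Real.rpow_one]
    exact_mod_cast this
  have hzK : z ^ K ≤ X := (Nat.pow_le_pow_right (by omega) hκK).trans hzκ
  have hmain := hS X z hzx0 hzK (QQ x a y b) (QQ_per x a y b hab) X
  have hprod := prod_le x a y b W hab hW z (by omega)
  have hVz := (hV z (by omega)).2
  set s := Real.sqrt (X : ℝ) with hs
  have hs2 : s ^ 2 = X := Real.sq_sqrt hXpos.le
  have hs3 : 3 ≤ s := by
    rw [hs]; apply Real.le_sqrt_of_sq_le; linarith
  have hzs : (z : ℝ) ≤ s := by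
    refine hz1.trans ?_
    rw [← hpow, hs, Real.sqrt_eq_rpow]
    apply Real.rpow_le_rpow_of_exponent_le (by linarith)
    exact one_div_le_one_div_of_le (by norm_num) hκR
  have hLs : Real.log X = 2 * Real.log s := by
    rw [← hs2, Real.log_pow]; norm_num
  have hLs0 : 0 < Real.log s := Real.log_pos (by linarith)
  have hLX : 0 < Real.log X := by rw [hLs]; linarith
  have hlogz : Real.log X / (2 * κ) ≤ Real.log z := by
    have : Real.log (u X) ≤ Real.log z := Real.log_le_log (by linarith) hzu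
    rw [hu] at this
    simp only at this
    rw [Real.log_rpow hXpos] at this
    calc _ = 1 / (2 * κ : ℝ) * Real.log X := by ring
      _ ≤ _ := this
  have hVz0 : 0 ≤ Vz z := by
    unfold Vz
    apply prod_nonneg
    intro p hp
    have h5 := (mem_pz.1 hp).2.one_le
    have : (1 : ℝ) ≤ p := by exact_mod_cast h5
    rw [sub_nonneg, div_le_one (by linarith)]
    exact this
  have hVz2 : Vz z ^ 2 ≤ 4 * (C1 * κ) ^ 2 / Real.log X ^ 2 := by
    have h5 : Vz z ≤ 2 * (C1 * κ) / Real.log X := by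
      refine hVz.trans ?_
      rw [div_le_div_iff₀ (by have : 0 < Real.log X / (2 * κ) := by positivity
                              linarith) hLX]
      have h6 := mul_le_mul_of_nonneg_left hlogz (by positivity : (0 : ℝ) ≤ 2 * (C1 * κ))
      have e1 : 2 * (C1 * κ) * (Real.log X / (2 * κ)) = C1 * Real.log X := by
        field_simp
      linarith
    calc Vz z ^ 2 ≤ (2 * (C1 * κ) / Real.log X) ^ 2 := pow_le_pow_left₀ hVz0 h5 2
      _ = _ := by ring
  have hsig := sig_mono (y := z) (z := X) (by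
    calc z = z ^ 1 := (pow_one z).symm
      _ ≤ z ^ κ := Nat.pow_le_pow_right (by omega) (by omega)
      _ ≤ X := hzκ) W
  have hsig1 := one_le_sig z W
  have hsigX := one_le_sig X W
  set Pr := ∏ p ∈ pz z, (1 - (nuB (QQ x a y b) p : ℝ) / p) with hPr
  have hPi2 : Pr ≤ 36 * (C1 * κ) ^ 2 / Real.log X ^ 2 * sig X W := by
    refine hprod.trans ?_
    calc 9 * Vz z ^ 2 * sig z W ≤ 9 * (4 * (C1 * κ) ^ 2 / Real.log X ^ 2) * sig X W := by
          apply mul_le_mul _ hsig (by linarith) (by positivity)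
          linarith
      _ = _ := by ring
  have hcard := sift_card x a y b z X ha hb
  have hcardR : (((range X).filter (fun n => (x + a * n).Prime ∧ (y + b * n).Prime)).card : ℝ) ≤
      (((Icc 1 X).filter (fun n : ℕ => ∀ p ∈ pz z, ¬ QQ x a y b p n)).card : ℝ) + (2 * z + 3) := by
    exact_mod_cast hcard
  have hmain2 := (abs_le.1 hmain).2
  have hsmall : 2 * (z : ℝ) + 3 + s ≤ X / Real.log X ^ 2 := by
    rw [le_div_iff₀ (by positivity)]
    have h5 : Real.log X ^ 2 ≤ (1 / 10) * s := by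
      rw [hLs]; nlinarith [h2]
    calc (2 * (z : ℝ) + 3 + s) * Real.log X ^ 2 ≤ (2 * s + 3 + s) * ((1 / 10) * s) := by
          apply mul_le_mul (by linarith) h5 (by positivity) (by positivity)
      _ ≤ X := by rw [← hs2]; nlinarith
  have hXL : 0 ≤ (X : ℝ) / Real.log X ^ 2 := by positivity
  have h6 : X * Pr ≤ 36 * (C1 * κ) ^ 2 * sig X W * (X / Real.log X ^ 2) := by
    calc X * Pr ≤ X * (36 * (C1 * κ) ^ 2 / Real.log X ^ 2 * sig X W) :=
          mul_le_mul_of_nonneg_left hPi2 hXpos.le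
      _ = _ := by ring
  have h7 : (X : ℝ) / Real.log X ^ 2 ≤ sig X W * (X / Real.log X ^ 2) := le_mul_of_one_le_left hXL hsigX
  calc (((range X).filter (fun n => (x + a * n).Prime ∧ (y + b * n).Prime)).card : ℝ)
      ≤ 2 * (X * Pr) + (2 * z + 3 + s) := by linarith
    _ ≤ 2 * (36 * (C1 * κ) ^ 2 * sig X W * (X / Real.log X ^ 2)) + sig X W * (X / Real.log X ^ 2) := by
        linarith
    _ = _ := by ring

end Pool.Agent.H48C
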