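import Pool.Agent.H48C.Sieve
import Pool.Agent.H499R2.NDStep3

/-! Primes in trajectories, part D: divisibility of the offsets by a fixed integer, and the mean
value of the local factor of the exceptional primes. -/

set_option autoImplicit false

namespace Pool.Agent.H48C

open Finset Pool.Agent.H320R2.PD Pool.Agent.H499R2.ND Pool.Agent.H373R2.T7

theorem Wo_tail {a b : List ℕ} {e f : ℕ} (ha : ∀ x ∈ a, 1 ≤ x) (hb : ∀ x ∈ b, 1 ≤ x)
    (hl : a.length = b.length) (h : Wo (e :: a) = Wo (f :: b)) : a = b := by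
  have h1 : Wo ((b.sum + 1) :: a) = Wo ((a.sum + 1) :: b) := h
  have h2 := Wo_inj (u := (b.sum + 1) :: a) (v := (a.sum + 1) :: b)
    (by intro x hx; rw [List.mem_cons] at hx; rcases hx with rfl | hx
        · omega
        · exact ha x hx)
    (by intro x hx; rw [List.mem_cons] at hx; rcases hx with rfl | hx
        · omega
        · exact hb x hx)
    (by simp [hl]) (by rw [List.sum_cons, List.sum_cons]; omega) h1
  exact (List.cons.inj h2).2

/-- words with the same offset -/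
theorem same_Wo (cap i : ℕ) (S : Finset (List ℕ)) (hS : S ⊆ FW cap (i + 1))
    (h : ∀ u ∈ S, ∀ v ∈ S, Wo u = Wo v) : ∑ v ∈ S, wwt v ≤ (1 / 2 : ℝ) ^ i := by
  classical
  rcases S.eq_empty_or_nonempty with rfl | ⟨u, hu⟩
  · rw [sum_empty]; positivity
  have hu' := hS hu
  obtain ⟨hul, hue⟩ := mem_FW.1 hu'
  cases u with
  | nil => simp at hul
  | cons e a =>
    have hla : a.length = i := by simpa using hul
    have ha1 : ∀ x ∈ a, 1 ≤ x := fun x hx => (hue x (List.mem_cons_of_mem _ hx)).1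
    have hsub : S ⊆ (Icc 1 cap).image (fun f => f :: a) := by
      intro v hv
      obtain ⟨hvl, hve⟩ := mem_FW.1 (hS hv)
      cases v with
      | nil => simp at hvl
      | cons f b =>
        have hlb : b.length = i := by simpa using hvl
        have hb1 : ∀ x ∈ b, 1 ≤ x := fun x hx => (hve x (List.mem_cons_of_mem _ hx)).1
        have := Wo_tail ha1 hb1 (by rw [hla, hlb]) (h _ hu _ hv)
        rw [mem_image]
        exact ⟨f, mem_Icc.2 (hve f (by simp)), by rw [this]⟩
    have hwa : wwt a ≤ (1 / 2 : ℝ) ^ i := by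
      unfold wwt
      apply pow_le_pow_of_le_one (by norm_num) (by norm_num)
      rw [← hla]
      have := List.card_nsmul_le_sum a 1 ha1
      simpa using this
    calc ∑ v ∈ S, wwt v ≤ ∑ v ∈ (Icc 1 cap).image (fun f => f :: a), wwt v :=
          sum_le_sum_of_subset_of_nonneg hsub fun v _ _ => Pool.Agent.H320R2.PD.wwt_nonneg v
      _ = ∑ f ∈ Icc 1 cap, wwt (f :: a) := by
          rw [sum_image]
          intro x _ y _ hxy
          exact (List.cons.inj hxy).1
      _ = (∑ f ∈ Icc 1 cap, (1 / 2 : ℝ) ^ f) * wwt a := by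
          rw [sum_mul]
          apply sum_congr rfl
          intro f _
          unfold wwt
          rw [List.sum_cons, pow_add]
      _ ≤ 1 * wwt a := by
          apply mul_le_mul_of_nonneg_right _ (Pool.Agent.H320R2.PD.wwt_nonneg a)
          rw [sum_Icc_half]
          have : (0 : ℝ) ≤ (1 / 2) ^ cap := by positivity
          linarith
      _ ≤ _ := by rw [one_mul]; exact hwa

/-- heavy words -/
theorem heavy (cap j i : ℕ) (hj : j ≤ i) :
    ∑ v ∈ (FW cap j).filter (fun v => 4 * i < v.sum), wwt v ≤ (3 / 5 : ℝ) ^ i := by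
  have h1 := gen_le cap j (θ := 3 / 2) (by norm_num) (by norm_num)
  have h2 : ∑ v ∈ (FW cap j).filter (fun v => 4 * i < v.sum), wwt v * (3 / 2 : ℝ) ^ (4 * i)
      ≤ ∑ v ∈ FW cap j, wwt v * (3 / 2 : ℝ) ^ v.sum := by
    calc _ ≤ ∑ v ∈ (FW cap j).filter (fun v => 4 * i < v.sum), wwt v * (3 / 2 : ℝ) ^ v.sum := by
          apply sum_le_sum
          intro v hv
          rw [mem_filter] at hv
          apply mul_le_mul_of_nonneg_left _ (Pool.Agent.H320R2.PD.wwt_nonneg v)
          exact pow_le_pow_right₀ (by norm_num) hv.2.le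
      _ ≤ _ := by
          apply sum_le_sum_of_subset_of_nonneg (filter_subset _ _)
          intro v _ _
          have := Pool.Agent.H320R2.PD.wwt_nonneg v
          positivity
  rw [← sum_mul] at h2
  have h3 : (3 / 2 / (2 - 3 / 2) : ℝ) ^ j ≤ 3 ^ i := by
    rw [show (3 / 2 / (2 - 3 / 2) : ℝ) = 3 by norm_num]
    exact pow_le_pow_right₀ (by norm_num) hj
  have h4 : (∑ v ∈ (FW cap j).filter (fun v => 4 * i < v.sum), wwt v) * (3 / 2 : ℝ) ^ (4 * i) ≤ 3 ^ i :=
    h2.trans (h1.trans h3)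
  rw [← le_div_iff₀ (by positivity)] at h4
  refine h4.trans ?_
  rw [pow_mul, ← div_pow]
  apply pow_le_pow_left₀ (by norm_num)
  norm_num

theorem Wo_lt {v : List ℕ} (hv : ∀ e ∈ v, 1 ≤ e) {i : ℕ} (hl : v.length ≤ i) (hs : v.sum ≤ 4 * i) :
    Wo v < 64 ^ i := by
  have h1 := Wo_le hv
  have h2 : (2 : ℝ) ^ v.sum * ((3 / 2 : ℝ) ^ v.length - 1) < 64 ^ i := by
    have e1 : (2 : ℝ) ^ v.sum ≤ 2 ^ (4 * i) := pow_le_pow_right₀ (by norm_num) hs
    have e2 : (3 / 2 : ℝ) ^ v.length ≤ (3 / 2) ^ i := pow_le_pow_right₀ (by norm_num) hl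
    have e3 : (1 : ℝ) ≤ (3 / 2 : ℝ) ^ v.length := one_le_pow₀ (by norm_num)
    have e4 : (2 : ℝ) ^ (4 * i) * (3 / 2) ^ i ≤ 64 ^ i := by
      rw [pow_mul, ← mul_pow]
      apply pow_le_pow_left₀ (by norm_num)
      norm_num
    have e5 : (0 : ℝ) < 2 ^ v.sum := by positivity
    calc (2 : ℝ) ^ v.sum * ((3 / 2 : ℝ) ^ v.length - 1) < 2 ^ v.sum * (3 / 2 : ℝ) ^ v.length := by
          apply mul_lt_mul_of_pos_left _ e5
          linarith
      _ ≤ 2 ^ (4 * i) * (3 / 2) ^ i := mul_le_mul e1 e2 (by positivity) (by positivity)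
      _ ≤ _ := e4
  exact_mod_cast h1.trans_lt h2

theorem Wo_pos {v : List ℕ} (hv : v ≠ []) : 0 < Wo v := by
  cases v with
  | nil => exact absurd rfl hv
  | cons e a => unfold Wo; positivity

/-- the probability that `d` divides the offset -/
theorem dvd_Wo (cap j d : ℕ) (hj : 1 ≤ j) (hd : 1 ≤ d) (hcop : Nat.Coprime d 6) :
    ∑ v ∈ (FW cap j).filter (fun v => d ∣ Wo v), wwt v ≤ 3 * (3 / 5 : ℝ) ^ (Nat.log 64 d) := by
  classical
  set i := Nat.log 64 d with hi
  have h64 : 64 ^ i ≤ d := Nat.pow_log_le_self 64 (by omega)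
  have h35 : (0 : ℝ) < (3 / 5) ^ i := by positivity
  rcases Nat.eq_zero_or_pos i with hi0 | hi0
  · rw [hi0, pow_zero]
    calc _ ≤ ∑ v ∈ FW cap j, wwt v := sum_le_sum_of_subset_of_nonneg (filter_subset _ _)
          fun v _ _ => Pool.Agent.H320R2.PD.wwt_nonneg v
      _ ≤ 1 := sum_wwt_le cap j
      _ ≤ _ := by norm_num
  rcases Nat.lt_or_ge j i with hji | hji
  · have hsub : (FW cap j).filter (fun v => d ∣ Wo v) ⊆ (FW cap j).filter (fun v => 4 * i < v.sum) := by
      intro v hv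
      rw [mem_filter] at hv ⊢
      refine ⟨hv.1, ?_⟩
      by_contra hcon
      obtain ⟨hl, he⟩ := FW_props hv.1
      have h1 := Wo_lt he (i := i) (by omega) (by omega)
      have hne : v ≠ [] := by rintro rfl; simp at hl; omega
      have h2 := Nat.le_of_dvd (Wo_pos hne) hv.2
      omega
    have h3 := sum_le_sum_of_subset_of_nonneg hsub (f := wwt)
      (fun v _ _ => Pool.Agent.H320R2.PD.wwt_nonneg v)
    have h4 := heavy cap j i hji.le
    linarith
  · obtain ⟨r, rfl⟩ := Nat.exists_eq_add_of_le hji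
    obtain ⟨i', hi'⟩ : ∃ i', i = i' + 1 := ⟨i - 1, by omega⟩
    rw [sum_filter, add_comm i r, add_comm r i, sum_FW_add, sum_comm]
    have key : ∀ u ∈ FW cap r, ∑ v ∈ FW cap i, (if d ∣ Wo (v ++ u) then wwt (v ++ u) else 0)
        ≤ wwt u * (3 * (3 / 5 : ℝ) ^ i) := by
      intro u _
      have h1 : ∑ v ∈ FW cap i, (if d ∣ Wo (v ++ u) then wwt (v ++ u) else 0)
          = wwt u * ∑ v ∈ (FW cap i).filter (fun v => d ∣ Wo (v ++ u)), wwt v := by
        rw [sum_filter, mul_sum]
        apply sum_congr rfl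
        intro v _
        split_ifs
        · rw [wwt_append, mul_comm]
        · rw [mul_zero]
      rw [h1]
      apply mul_le_mul_of_nonneg_left _ (Pool.Agent.H320R2.PD.wwt_nonneg u)
      have hsub : (FW cap i).filter (fun v => d ∣ Wo (v ++ u)) ⊆
          (FW cap i).filter (fun v => 4 * i < v.sum) ∪
          (FW cap i).filter (fun v => v.sum ≤ 4 * i ∧ d ∣ Wo (v ++ u)) := by
        intro v hv
        rw [mem_filter] at hv
        rw [mem_union, mem_filter, mem_filter]
        rcases Nat.lt_or_ge (4 * i) v.sum with h | h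
        · exact Or.inl ⟨hv.1, h⟩
        · exact Or.inr ⟨hv.1, h, hv.2⟩
      have h2 : ∑ v ∈ (FW cap i).filter (fun v => v.sum ≤ 4 * i ∧ d ∣ Wo (v ++ u)), wwt v
          ≤ (1 / 2 : ℝ) ^ i' := by
        apply same_Wo cap i' _ (by rw [← hi']; exact filter_subset _ _)
        intro v hv v' hv'
        rw [mem_filter] at hv hv'
        obtain ⟨hl, he⟩ := FW_props hv.1
        obtain ⟨hl', he'⟩ := FW_props hv'.1
        have g1 := (Wo_lt he (i := i) (by omega) hv.2.1).trans_le h64
        have g2 := (Wo_lt he' (i := i) (by omega) hv'.2.1).trans_le h64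
        have g3 : (d : ℤ) ∣ 2 ^ u.sum * ((Wo v : ℤ) - Wo v') := by
          have k1 : (d : ℤ) ∣ (Wo (v ++ u) : ℤ) := by exact_mod_cast hv.2.2
          have k2 : (d : ℤ) ∣ (Wo (v' ++ u) : ℤ) := by exact_mod_cast hv'.2.2
          have k3 := dvd_sub k1 k2
          rw [Wo_append, Wo_append, hl, hl'] at k3
          push_cast at k3
          have : (2 : ℤ) ^ u.sum * ((Wo v : ℤ) - Wo v') =
            2 ^ u.sum * (Wo v : ℤ) + 3 ^ i * Wo u - (2 ^ u.sum * Wo v' + 3 ^ i * Wo u) := by ring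
          rw [this]; exact k3
        have g4 : IsCoprime (d : ℤ) (2 ^ u.sum) := by
          apply IsCoprime.pow_right
          have : Nat.Coprime d 2 := Nat.Coprime.coprime_dvd_right (by norm_num) hcop
          exact_mod_cast Nat.isCoprime_iff_coprime.2 this
        have g5 := g4.dvd_of_dvd_mul_left g3
        have g6 : (Wo v : ℤ) - Wo v' = 0 := by
          apply Int.eq_zero_of_abs_lt_dvd g5
          rw [abs_lt]; constructor <;> omega
        omega
      have h3 := heavy cap i i le_rfl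
      have h4 : ∑ v ∈ (FW cap i).filter (fun v => d ∣ Wo (v ++ u)), wwt v ≤
          ∑ v ∈ (FW cap i).filter (fun v => 4 * i < v.sum), wwt v +
          ∑ v ∈ (FW cap i).filter (fun v => v.sum ≤ 4 * i ∧ d ∣ Wo (v ++ u)), wwt v := by
        refine (sum_le_sum_of_subset_of_nonneg hsub
          fun v _ _ => Pool.Agent.H320R2.PD.wwt_nonneg v).trans ?_
        rw [← sum_union_inter]
        have : 0 ≤ ∑ v ∈ (FW cap i).filter (fun v => 4 * i < v.sum) ∩
          (FW cap i).filter (fun v => v.sum ≤ 4 * i ∧ d ∣ Wo (v ++ u)), wwt v :=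
          sum_nonneg fun v _ => Pool.Agent.H320R2.PD.wwt_nonneg v
        linarith
      have h5 : (1 / 2 : ℝ) ^ i' = 2 * (1 / 2) ^ i := by
        rw [hi', pow_succ]; ring
      have h6 : (1 / 2 : ℝ) ^ i ≤ (3 / 5) ^ i := pow_le_pow_left₀ (by norm_num) (by norm_num) i
      linarith
    calc _ ≤ ∑ u ∈ FW cap r, wwt u * (3 * (3 / 5 : ℝ) ^ i) := sum_le_sum key
      _ = (∑ u ∈ FW cap r, wwt u) * (3 * (3 / 5 : ℝ) ^ i) := by rw [sum_mul]
      _ ≤ 1 * (3 * (3 / 5 : ℝ) ^ i) :=
          mul_le_mul_of_nonneg_right (sum_wwt_le cap r) (by positivity)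
      _ = _ := one_mul _

theorem dvd_Wo' (cap j d : ℕ) (hj : 1 ≤ j) (hd : 1 ≤ d) (hcop : Nat.Coprime d 6) :
    ∑ v ∈ (FW cap j).filter (fun v => d ∣ Wo v), wwt v ≤ 5 * (d : ℝ) ^ (-(1 / 10 : ℝ)) := by
  refine (dvd_Wo cap j d hj hd hcop).trans ?_
  set i := Nat.log 64 d with hi
  have h64 : d < 64 ^ (i + 1) := Nat.lt_pow_succ_log_self (by norm_num) d
  have hdR : (1 : ℝ) ≤ d := by exact_mod_cast hd
  have h1 : (d : ℝ) ^ (1 / 10 : ℝ) ≤ (5 / 3) ^ (i + 1) := by
    have h2 : (d : ℝ) ≤ (64 : ℝ) ^ (i + 1) := by exact_mod_cast h64.le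
    have h3 : (64 : ℝ) ≤ (5 / 3) ^ 10 := by norm_num
    have h4 : (d : ℝ) ≤ ((5 / 3 : ℝ) ^ (i + 1)) ^ 10 := by
      rw [← pow_mul, mul_comm, pow_mul]
      exact h2.trans (pow_le_pow_left₀ (by norm_num) h3 _)
    calc (d : ℝ) ^ (1 / 10 : ℝ) ≤ (((5 / 3 : ℝ) ^ (i + 1)) ^ 10) ^ (1 / 10 : ℝ) :=
          Real.rpow_le_rpow (by linarith) h4 (by norm_num)
      _ = (5 / 3 : ℝ) ^ (i + 1) := by
          rw [← Real.rpow_natCast ((5 / 3 : ℝ) ^ (i + 1)) 10, ← Real.rpow_mul (by positivity)]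
          norm_num
  have hdp : 0 < (d : ℝ) ^ (1 / 10 : ℝ) := by positivity
  rw [Real.rpow_neg (by linarith), ← div_eq_mul_inv, le_div_iff₀ hdp]
  calc 3 * (3 / 5 : ℝ) ^ i * (d : ℝ) ^ (1 / 10 : ℝ) ≤ 3 * (3 / 5 : ℝ) ^ i * (5 / 3) ^ (i + 1) :=
        mul_le_mul_of_nonneg_left h1 (by positivity)
    _ = 5 * ((3 / 5) * (5 / 3)) ^ i := by rw [mul_pow, pow_succ]; ring
    _ = 5 := by norm_num

/-- the mean value of the local factor -/
theorem mean_sig : ∃ C : ℝ, 1 ≤ C ∧ ∀ cap j y : ℕ, 1 ≤ j →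
    ∑ v ∈ FW cap j, wwt v * sig y (Wo v) ≤ C := by
  classical
  have hsum : Summable (fun n : ℕ => 1 / (n : ℝ) ^ (11 / 10 : ℝ)) :=
    Real.summable_one_div_nat_rpow.2 (by norm_num)
  set Z := ∑' n : ℕ, 1 / (n : ℝ) ^ (11 / 10 : ℝ) with hZ
  refine ⟨5 * Real.exp (2 * Z), ?_, fun cap j y hj => ?_⟩
  · have h0 : 0 ≤ Z := tsum_nonneg fun n => by positivity
    have := Real.one_le_exp (by linarith : 0 ≤ 2 * Z)
    linarith
  set P := (pz y).filter (fun p => 5 ≤ p) with hP
  have hPp : ∀ p ∈ P, p.Prime ∧ 5 ≤ p := by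
    intro p hp
    rw [hP, mem_filter, mem_pz] at hp
    exact ⟨hp.1.2, hp.2⟩
  have hsig : ∀ W : ℕ, sig y W = ∑ S ∈ P.powerset,
      (if (∏ p ∈ S, p) ∣ W then ∏ p ∈ S, 2 / (p : ℝ) else 0) := by
    intro W
    have h1 : sig y W = ∏ p ∈ P, (1 + if p ∣ W then 2 / (p : ℝ) else 0) := by
      unfold sig
      have : (pz y).filter (fun p => 5 ≤ p ∧ p ∣ W) = P.filter (fun p => p ∣ W) := by
        rw [hP, filter_filter]
      rw [this, prod_filter]
      apply prod_congr rfl
      intro p _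
      split_ifs <;> simp
    rw [h1, prod_one_add]
    apply sum_congr rfl
    intro S hS
    rw [mem_powerset] at hS
    split_ifs with h
    · apply prod_congr rfl
      intro p hp
      rw [if_pos ((dvd_prod_of_mem _ hp).trans h)]
    · have : ∃ p ∈ S, ¬ p ∣ W := by
        by_contra hcon
        push Not at hcon
        apply h
        exact Finset.prod_primes_dvd W (fun p hp => (hPp p (hS hp)).1.prime) hcon
      obtain ⟨p, hp, hpW⟩ := this
      exact prod_eq_zero hp (if_neg hpW)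
  calc ∑ v ∈ FW cap j, wwt v * sig y (Wo v)
      = ∑ v ∈ FW cap j, ∑ S ∈ P.powerset,
          (if (∏ p ∈ S, p) ∣ Wo v then wwt v * ∏ p ∈ S, 2 / (p : ℝ) else 0) := by
        apply sum_congr rfl
        intro v _
        rw [hsig, mul_sum]
        apply sum_congr rfl
        intro S _
        rw [mul_ite, mul_zero]
    _ = ∑ S ∈ P.powerset, (∏ p ∈ S, 2 / (p : ℝ)) *
          ∑ v ∈ (FW cap j).filter (fun v => (∏ p ∈ S, p) ∣ Wo v), wwt v := by
        rw [sum_comm]
        apply sum_congr rfl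
        intro S _
        rw [← sum_filter, mul_sum]
        apply sum_congr rfl
        intro v _
        ring
    _ ≤ ∑ S ∈ P.powerset, (∏ p ∈ S, 2 / (p : ℝ)) * (5 * ∏ p ∈ S, (p : ℝ) ^ (-(1 / 10 : ℝ))) := by
        apply sum_le_sum
        intro S hS
        rw [mem_powerset] at hS
        apply mul_le_mul_of_nonneg_left _ (prod_nonneg fun p _ => by positivity)
        have hcop : Nat.Coprime (∏ p ∈ S, p) 6 := by
          apply Nat.Coprime.prod_left
          intro p hp
          obtain ⟨h1, h2⟩ := hPp p (hS hp)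
          rw [Nat.Prime.coprime_iff_not_dvd h1]
          intro h3
          have := Nat.le_of_dvd (by norm_num) h3
          interval_cases p
          · omega
          · exact absurd h1 (by norm_num)
        refine (dvd_Wo' cap j (∏ p ∈ S, p) hj (Nat.one_le_iff_ne_zero.2
          (prod_ne_zero_iff.2 fun p hp => (hPp p (hS hp)).1.ne_zero)) hcop).trans (le_of_eq ?_)
        congr 1
        push_cast
        rw [← Real.finsetProd_rpow]
        intro p _; positivity
    _ = 5 * ∑ S ∈ P.powerset, ∏ p ∈ S, (2 / (p : ℝ) ^ (11 / 10 : ℝ)) := by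
        rw [mul_sum]
        apply sum_congr rfl
        intro S hS
        rw [mem_powerset] at hS
        rw [mul_left_comm, ← prod_mul_distrib]
        congr 1
        apply prod_congr rfl
        intro p hp
        have hp0 : (0 : ℝ) < p := by exact_mod_cast (hPp p (hS hp)).1.pos
        rw [show (11 / 10 : ℝ) = 1 + 1 / 10 by norm_num, Real.rpow_add hp0, Real.rpow_one,
          Real.rpow_neg hp0.le]
        field_simp
    _ = 5 * ∏ p ∈ P, (1 + 2 / (p : ℝ) ^ (11 / 10 : ℝ)) := by rw [prod_one_add]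
    _ ≤ 5 * Real.exp (∑ p ∈ P, 2 / (p : ℝ) ^ (11 / 10 : ℝ)) := by
        apply mul_le_mul_of_nonneg_left _ (by norm_num)
        rw [Real.exp_sum]
        apply prod_le_prod
        · intro p _; positivity
        · intro p _
          have := Real.add_one_le_exp (2 / (p : ℝ) ^ (11 / 10 : ℝ))
          linarith
    _ ≤ 5 * Real.exp (2 * Z) := by
        apply mul_le_mul_of_nonneg_left _ (by norm_num)
        apply Real.exp_le_exp.2
        have : ∑ p ∈ P, 2 / (p : ℝ) ^ (11 / 10 : ℝ) = 2 * ∑ p ∈ P, 1 / (p : ℝ) ^ (11 / 10 : ℝ) := by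
          rw [mul_sum]
          apply sum_congr rfl
          intro p _; ring
        rw [this]
        apply mul_le_mul_of_nonneg_left _ (by norm_num)
        exact hsum.sum_le_tsum P (fun n _ => by positivity)

end Pool.Agent.H48C
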